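import Pool.Agent.W5h6.LG.Contract

/-! # Binomials have measure one -/

set_option autoImplicit false

namespace Pool.Agent.W5h6.LG

open Matrix MeasureTheory Filter Topology Pool.Agent.H261R2.CM Pool.Agent.W5h6.HS
open scoped ComplexConjugate

noncomputable section

open Polynomial in
theorem m1_bin_aux (σ τ : ℤˣ) (d : ℕ) (hd : d ≠ 0) :
    m1 (C ((σ : ℤˣ) : ℤ) + C ((τ : ℤˣ) : ℤ) * X ^ d) = 1 := by
  unfold m1
  rw [mahlerMeasure_eq_leadingCoeff_mul_prod_roots]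
  have h1 : toC (C ((σ : ℤˣ) : ℤ) + C ((τ : ℤˣ) : ℤ) * X ^ d) =
      C (((τ : ℤˣ) : ℤ) : ℂ) * X ^ d + C (((σ : ℤˣ) : ℤ) : ℂ) := by
    unfold toC
    simp only [Polynomial.map_add, Polynomial.map_mul, Polynomial.map_pow, Polynomial.map_X,
      Polynomial.map_C]
    rw [add_comm]
    rfl
  have hτ : ‖(((τ : ℤˣ) : ℤ) : ℂ)‖ = 1 := by
    rcases Int.units_eq_one_or τ with h | h <;> rw [h] <;> simp
  have hσ : ‖(((σ : ℤˣ) : ℤ) : ℂ)‖ = 1 := by
    rcases Int.units_eq_one_or σ with h | h <;> rw [h] <;> simp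
  have hτ0 : (((τ : ℤˣ) : ℤ) : ℂ) ≠ 0 := by
    rw [← norm_ne_zero_iff, hτ]
    exact one_ne_zero
  rw [h1]
  have h2 : (C (((τ : ℤˣ) : ℤ) : ℂ) * X ^ d + C (((σ : ℤˣ) : ℤ) : ℂ) : ℂ[X]).leadingCoeff =
      (((τ : ℤˣ) : ℤ) : ℂ) := by
    rw [leadingCoeff_add_of_degree_lt']
    · exact leadingCoeff_C_mul_X_pow _ _
    · rw [degree_C_mul_X_pow _ hτ0]
      refine lt_of_le_of_lt degree_C_le ?_
      exact_mod_cast Nat.pos_of_ne_zero hd
  rw [h2, hτ, one_mul]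
  have h3 : ∀ a ∈ (C (((τ : ℤˣ) : ℤ) : ℂ) * X ^ d + C (((σ : ℤˣ) : ℤ) : ℂ) : ℂ[X]).roots,
      max 1 ‖a‖ = 1 := by
    intro a ha
    have h4 := isRoot_of_mem_roots ha
    rw [IsRoot.def] at h4
    simp only [eval_add, eval_mul, eval_C, eval_pow, eval_X] at h4
    have h5 : ‖a‖ ^ d = 1 := by
      have h6 : (((τ : ℤˣ) : ℤ) : ℂ) * a ^ d = -(((σ : ℤˣ) : ℤ) : ℂ) := by
        linear_combination h4
      have h7 := congrArg norm h6
      rwa [norm_mul, norm_pow, norm_neg, hτ, hσ, one_mul] at h7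
    have h6 : ‖a‖ = 1 := by
      rwa [pow_eq_one_iff_of_nonneg (norm_nonneg _) hd] at h5
    rw [h6, max_self]
  rw [Multiset.map_congr rfl h3]
  simp

open Polynomial in
theorem m1_unit_X (σ : ℤˣ) (a : ℕ) : m1 (C ((σ : ℤˣ) : ℤ) * X ^ a) = 1 := by
  unfold m1
  rw [mahlerMeasure_eq_leadingCoeff_mul_prod_roots]
  have h1 : toC (C ((σ : ℤˣ) : ℤ) * X ^ a) = C (((σ : ℤˣ) : ℤ) : ℂ) * X ^ a := by
    unfold toC
    simp only [Polynomial.map_mul, Polynomial.map_pow, Polynomial.map_X, Polynomial.map_C]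
    rfl
  have hσ : ‖(((σ : ℤˣ) : ℤ) : ℂ)‖ = 1 := by
    rcases Int.units_eq_one_or σ with h | h <;> rw [h] <;> simp
  have hσ0 : (((σ : ℤˣ) : ℤ) : ℂ) ≠ 0 := by
    rw [← norm_ne_zero_iff, hσ]
    exact one_ne_zero
  rw [h1]
  have h2 : (C (((σ : ℤˣ) : ℤ) : ℂ) * X ^ a : ℂ[X]).leadingCoeff = (((σ : ℤˣ) : ℤ) : ℂ) :=
    leadingCoeff_C_mul_X_pow _ _
  rw [h2, hσ, one_mul, roots_C_mul_X_pow hσ0]
  simp [Multiset.map_nsmul, Multiset.nsmul_singleton]

open Polynomial in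
theorem m1_bin (σ τ : ℤˣ) (a b : ℕ) (hab : a ≠ b) :
    m1 (C ((σ : ℤˣ) : ℤ) * X ^ a + C ((τ : ℤˣ) : ℤ) * X ^ b) = 1 := by
  rcases lt_or_gt_of_ne hab with h | h
  · have h1 : (C ((σ : ℤˣ) : ℤ) * X ^ a + C ((τ : ℤˣ) : ℤ) * X ^ b : ℤ[X]) =
        (C (((1 : ℤˣ) : ℤˣ) : ℤ) * X ^ a) * (C ((σ : ℤˣ) : ℤ) + C ((τ : ℤˣ) : ℤ) * X ^ (b - a)) := by
      have h2 : b = a + (b - a) := by omega
      conv_lhs => rw [h2, pow_add]
      simp only [Units.val_one, map_one, one_mul]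
      ring
    rw [h1, I1_m1_mul, m1_unit_X, m1_bin_aux _ _ _ (by omega), one_mul]
  · have h1 : (C ((σ : ℤˣ) : ℤ) * X ^ a + C ((τ : ℤˣ) : ℤ) * X ^ b : ℤ[X]) =
        (C (((1 : ℤˣ) : ℤˣ) : ℤ) * X ^ b) * (C ((τ : ℤˣ) : ℤ) + C ((σ : ℤˣ) : ℤ) * X ^ (a - b)) := by
      have h2 : a = b + (a - b) := by omega
      conv_lhs => rw [h2, pow_add]
      simp only [Units.val_one, map_one, one_mul]
      ring
    rw [h1, I1_m1_mul, m1_unit_X, m1_bin_aux _ _ _ (by omega), one_mul]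

variable {k : ℕ}

theorem mM_unit (p : Fin k →₀ ℕ) (σ : ℤˣ) : mM (MvPolynomial.monomial p ((σ : ℤˣ) : ℤ)) = 1 := by
  unfold mM
  simp only [norm_tv_unit]
  simp

theorem bin_ne_zero {p q : Fin k →₀ ℕ} (hpq : p ≠ q) (σ τ : ℤˣ) :
    MvPolynomial.monomial p ((σ : ℤˣ) : ℤ) + MvPolynomial.monomial q ((τ : ℤˣ) : ℤ) ≠ 0 := by
  classical
  intro h0
  have h1 := congrArg (MvPolynomial.coeff p) h0
  rw [MvPolynomial.coeff_add, MvPolynomial.coeff_monomial, MvPolynomial.coeff_monomial,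
    if_pos rfl, if_neg (Ne.symm hpq), add_zero, MvPolynomial.coeff_zero] at h1
  exact σ.ne_zero h1

theorem mM_bin {p q : Fin k →₀ ℕ} (hpq : p ≠ q) (σ τ : ℤˣ) :
    mM (MvPolynomial.monomial p ((σ : ℤˣ) : ℤ) + MvPolynomial.monomial q ((τ : ℤˣ) : ℤ)) = 1 := by
  set e : ℕ → Fin k → ℕ := fun (n : ℕ) (i : Fin k) => n ^ (i : ℕ) with he
  have he1 : AsympIndep atTop e := asympIndep_pow k
  have h1 := m1_lim atTop e he1 _ (bin_ne_zero hpq σ τ)
  refine tendsto_nhds_unique h1 ?_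
  refine tendsto_const_nhds.congr' ?_
  have h2 : (fun i => ((p i : ℤ) - (q i : ℤ))) ≠ 0 := by
    intro h0
    apply hpq
    ext i
    have := congrFun h0 i
    simp only [Pi.zero_apply] at this
    omega
  filter_upwards [he1 _ h2] with n hn
  symm
  rw [map_add, TG.spec_monomial, TG.spec_monomial]
  refine m1_bin σ τ _ _ ?_
  intro h3
  apply hn
  have h4 : ((∑ i, p i * e n i : ℕ) : ℤ) = ((∑ i, q i * e n i : ℕ) : ℤ) := by rw [h3]
  push_cast at h4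
  simp only [sub_mul, Finset.sum_sub_distrib]
  rw [sub_eq_zero]
  exact h4

/-- the entry of a half-edge or loop has measure one, or it is `0`, or it is divisible by `2` -/
theorem entry_cases {n m : ℕ} (G : Gr n m k) (c : Fin m)
    (ht : G.t c = none ∨ G.t c = some (G.s c)) :
    mM (G.mat (G.s c) c) = 1 ∨ ∃ w, G.mat (G.s c) c = 2 * w := by
  unfold Gr.mat
  rw [if_pos rfl]
  rcases ht with ht | ht
  · rw [ht, if_neg (by simp), add_zero]
    exact Or.inl (mM_unit _ _)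
  · rw [ht, if_pos rfl]
    by_cases hpq : G.p c = G.q c
    · right
      rw [hpq, ← map_add]
      rcases Int.units_eq_one_or (G.σ c) with h | h <;> rcases Int.units_eq_one_or (G.τ c) with h' | h'
      · refine ⟨MvPolynomial.monomial (G.q c) 1, ?_⟩
        rw [h, h', two_mul, ← map_add]
        rfl
      · refine ⟨0, ?_⟩
        rw [h, h']
        simp
      · refine ⟨0, ?_⟩
        rw [h, h']
        simp
      · refine ⟨MvPolynomial.monomial (G.q c) (-1), ?_⟩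
        rw [h, h', two_mul, ← map_add]
        rfl
    · exact Or.inl (mM_bin hpq _ _)

end

end Pool.Agent.W5h6.LG
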