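import Pool.Agent.W5h6.LG.Gr

/-! # Contraction of an edge which is in all bases -/

set_option autoImplicit false

namespace Pool.Agent.W5h6.LG

open Matrix MeasureTheory Filter Pool.Agent.H261R2.CM Pool.Agent.W5h6.HS
open scoped ComplexConjugate

noncomputable section

variable {n m k : ℕ}

/-- the graph without `c` has determinant zero -/
def Gr.Coloop (G : Gr n m k) (c : Fin m) : Prop :=
  ∀ θ, (((G.ev θ).updateCol c 0) * ((G.ev θ).updateCol c 0)ᴴ).det = 0

/-- contraction of `c`; the source of `c` becomes isolated -/
def Gr.iso (G : Gr n m k) (c : Fin m) (u v : Fin n) : Gr n m k where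
  s f := if f = c then u else if G.s f = u then v else G.s f
  t f := if f = c then none else if G.t f = some u then some v else G.t f
  σ f := if f = c then 1 else if G.s f = u then -G.τ c * G.σ f else
    if G.s f = v then G.σ c * G.σ f else G.σ f
  τ f := if f = c then -1 else if G.t f = some u then -G.τ c * G.τ f else
    if G.t f = some v then G.σ c * G.τ f else G.τ f
  p f := if f = c then 0 else if G.s f = u then G.q c + G.p f else
    if G.s f = v then G.p c + G.p f else G.p f
  q f := if f = c then 0 else if G.t f = some u then G.q c + G.q f else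
    if G.t f = some v then G.p c + G.q f else G.q f

theorem norm_tv_unit (p : Fin k →₀ ℕ) (σ : ℤˣ) (θ : Fin k → ℝ) :
    ‖tv (MvPolynomial.monomial p ((σ : ℤˣ) : ℤ)) θ‖ = 1 := by
  unfold tv
  rw [MvPolynomial.map_monomial, MvPolynomial.eval_monomial, norm_mul, Finsupp.prod, norm_prod]
  have h1 : ‖(Int.castRingHom ℂ) ((σ : ℤˣ) : ℤ)‖ = 1 := by
    rcases Int.units_eq_one_or σ with h | h
    · rw [h]
      simp
    · rw [h]
      simp
  have h2 : ∀ i ∈ p.support, ‖Complex.exp (2 * (Real.pi : ℂ) * Complex.I * ((θ i : ℝ) : ℂ)) ^ p i‖ = 1 := by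
    intro i _
    rw [norm_pow]
    have h3 := D_norm_ez (θ i)
    unfold ez at h3
    rw [h3, one_pow]
  rw [h1, Finset.prod_congr rfl h2]
  simp

theorem Gr.iso_ldet (G : Gr n m k) (c : Fin m) {u v : Fin n} (huv : u ≠ v) (hs : G.s c = u)
    (ht : G.t c = some v) (hc : G.Coloop c) (θ : Fin k → ℝ) :
    (G.iso c u v).ldet θ = G.ldet θ := by
  unfold Gr.ldet
  have hev : ∀ w f, G.ev θ w f = tvHom θ (G.mat w f) := fun _ _ => rfl
  have hev' : ∀ w f, (G.iso c u v).ev θ w f = tvHom θ ((G.iso c u v).mat w f) := fun _ _ => rfl
  set a : MvPolynomial (Fin k) ℤ := MvPolynomial.monomial (G.p c) ((G.σ c : ℤˣ) : ℤ) with ha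
  set b : MvPolynomial (Fin k) ℤ := MvPolynomial.monomial (G.q c) ((G.τ c : ℤˣ) : ℤ) with hb
  have hmulA : ∀ (x : Fin k →₀ ℕ) (y : ℤˣ), a * MvPolynomial.monomial x ((y : ℤˣ) : ℤ) =
      MvPolynomial.monomial (G.p c + x) (((G.σ c * y : ℤˣ)) : ℤ) := by
    intro x y
    rw [ha, MvPolynomial.monomial_mul, Units.val_mul]
  have hmulB : ∀ (x : Fin k →₀ ℕ) (y : ℤˣ), -(b * MvPolynomial.monomial x ((y : ℤˣ) : ℤ)) =
      MvPolynomial.monomial (G.q c + x) (((-G.τ c * y : ℤˣ)) : ℤ) := by
    intro x y
    rw [hb, MvPolynomial.monomial_mul, ← map_neg]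
    congr 1
    push_cast
    ring
  have hvu : v ≠ u := huv.symm
  have huv' : (some u : Option (Fin n)) ≠ some v := fun h => huv (Option.some_injective _ h)
  have hvu' : (some v : Option (Fin n)) ≠ some u := fun h => hvu (Option.some_injective _ h)
  refine contract_det (G.ev θ) ((G.iso c u v).ev θ) huv c (α := tvHom θ a) (β := tvHom θ b) ?_ ?_ ?_
    ?_ ?_ ?_ (hc θ)
  · rw [tvHom_apply, ha]
    exact norm_tv_unit _ _ _
  · intro w
    rw [hev]
    unfold Gr.mat
    rw [hs, ht]
    by_cases hwu : w = u
    · subst hwu
      rw [if_pos rfl, if_neg hvu', if_pos rfl, add_zero]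
    · rw [if_neg (Ne.symm hwu), if_neg hwu, zero_add]
      by_cases hwv : w = v
      · subst hwv
        rw [if_pos rfl, if_pos rfl]
      · rw [if_neg (by simpa using Ne.symm hwv), if_neg hwv, map_zero]
  · intro w
    rw [hev']
    unfold Gr.mat Gr.iso
    simp only [if_true]
    by_cases hwu : w = u
    · subst hwu
      simp
    · rw [if_neg (Ne.symm hwu), if_neg hwu]
      simp
  · intro f hf
    rw [hev']
    have h1 : (G.iso c u v).mat u f = 0 := by
      unfold Gr.mat Gr.iso
      simp only [if_neg hf]
      rw [if_neg (by split_ifs with h1 <;> [exact hvu; exact h1]),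
        if_neg (by split_ifs with h1 <;> [exact hvu'; exact h1]), add_zero]
    rw [h1, map_zero]
  · intro f hf
    rw [hev', hev, hev, ← map_mul, ← map_mul, ← map_sub]
    congr 1
    unfold Gr.mat Gr.iso
    simp only [if_neg hf]
    rw [mul_add, mul_add, sub_eq_add_neg, neg_add, mul_ite, mul_ite, mul_ite, mul_ite, mul_zero,
      mul_zero, hmulA, hmulA]
    have e1 : -(if G.s f = u then b * MvPolynomial.monomial (G.p f) ((G.σ f : ℤˣ) : ℤ) else 0) =
        if G.s f = u then MvPolynomial.monomial (G.q c + G.p f) (((-G.τ c * G.σ f : ℤˣ)) : ℤ)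
          else 0 := by
      split_ifs with h1
      · exact hmulB _ _
      · exact neg_zero
    have e2 : -(if G.t f = some u then b * MvPolynomial.monomial (G.q f) ((G.τ f : ℤˣ) : ℤ) else 0) =
        if G.t f = some u then MvPolynomial.monomial (G.q c + G.q f) (((-G.τ c * G.τ f : ℤˣ)) : ℤ)
          else 0 := by
      split_ifs with h1
      · exact hmulB _ _
      · exact neg_zero
    rw [e1, e2]
    by_cases h1 : G.s f = u
    · have h1' : G.s f ≠ v := by rw [h1]; exact huv
      simp only [h1, if_true, huv, if_false]
      by_cases h2 : G.t f = some u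
      · simp only [h2, if_true, huv', if_false]
        abel
      · simp only [h2, if_false]
        by_cases h3 : G.t f = some v
        · simp only [h3, if_true]
          abel
        · simp only [h3, if_false]
          abel
    · simp only [h1, if_false]
      by_cases h4 : G.s f = v
      · simp only [h4, if_true]
        by_cases h2 : G.t f = some u
        · simp only [h2, if_true, huv', if_false]
          abel
        · simp only [h2, if_false]
          by_cases h3 : G.t f = some v
          · simp only [h3, if_true]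
            abel
          · simp only [h3, if_false]
            abel
      · simp only [h4, if_false]
        by_cases h2 : G.t f = some u
        · simp only [h2, if_true, huv', if_false]
          abel
        · simp only [h2, if_false]
          by_cases h3 : G.t f = some v
          · simp only [h3, if_true]
            abel
          · simp only [h3, if_false]
            abel
  · intro f hf w hwu hwv
    rw [hev', hev]
    congr 1
    unfold Gr.mat Gr.iso
    simp only [if_neg hf]
    have hwu' : (some u : Option (Fin n)) ≠ some w := fun h => hwu (Option.some_injective _ h).symm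
    have hwv' : (some v : Option (Fin n)) ≠ some w := fun h => hwv (Option.some_injective _ h).symm
    congr 1
    · by_cases h1 : G.s f = u
      · rw [if_pos h1, if_neg (Ne.symm hwv), h1, if_neg (Ne.symm hwu)]
      · simp only [h1, if_false]
        by_cases h4 : G.s f = v
        · simp only [h4, if_neg (Ne.symm hwv)]
        · simp only [h4, if_false]
    · by_cases h1 : G.t f = some u
      · rw [if_pos h1, if_neg hwv', h1, if_neg hwu']
      · simp only [h1, if_false]
        by_cases h4 : G.t f = some v
        · simp only [h4, if_neg hwv']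
        · simp only [h4, if_false]

/-- contraction -/
theorem Gr.contract (h g : Prop) (G : Gr (n + 1) (m + 1) k) (hG : G.Adm h g) (c : Fin (m + 1))
    {u v : Fin (n + 1)} (huv : u ≠ v) (hs : G.s c = u) (ht : G.t c = some v) (hc : G.Coloop c) :
    ∃ G' : Gr n m k, G'.Adm h g ∧ ∀ θ, ‖G.ldet θ‖ = ‖G'.ldet θ‖ := by
  have hvu : v ≠ u := huv.symm
  have hvu' : (some v : Option (Fin (n + 1))) ≠ some u := fun h => hvu (Option.some_injective _ h)
  obtain ⟨G', hG', h1⟩ := (G.iso c u v).remove h g u c (by simp [Gr.iso]) (Or.inl (by simp [Gr.iso]))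
    (by
      intro f hf
      simp only [Gr.iso, if_neg hf]
      exact ⟨by split_ifs with h1 <;> [exact hvu; exact h1],
        by split_ifs with h1 <;> [exact hvu'; exact h1]⟩)
    (by
      refine ⟨fun f hf h1 => ?_, fun f hf h1 => ?_⟩
      · simp only [Gr.iso, if_neg hf] at h1
        by_cases h2 : G.t f = some u
        · simp only [h2, if_true] at h1
          exact absurd h1 (by simp)
        · simp only [h2, if_false] at h1
          exact hG.1 f h1
      · by_contra hg
        have h2 : ∀ f, G.σ f = 1 ∧ G.τ f = -1 := fun f => by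
          by_contra h3
          exact hg (hG.2 f h3)
        apply h1
        simp only [Gr.iso, if_neg hf, (h2 c).1, (h2 c).2, (h2 f).1, (h2 f).2]
        constructor
        · split_ifs <;> simp
        · split_ifs <;> simp)
  refine ⟨G', hG', fun θ => ?_⟩
  rw [← G.iso_ldet c huv hs ht hc θ, h1 θ]
  have h2 : (G.iso c u v).mat u c = MvPolynomial.monomial 0 (((1 : ℤˣ)) : ℤ) := by
    unfold Gr.mat Gr.iso
    simp
  rw [h2, norm_tv_unit]
  ring

end

end Pool.Agent.W5h6.LG
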