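import Pool.Agent.W5h6.LG.Lim

/-! # Integral shifts -/

set_option autoImplicit false

namespace Pool.Agent.W5h6.LG

open Matrix MeasureTheory Filter Topology Pool.Agent.H261R2.CM Pool.Agent.W5h6.HS
open scoped ComplexConjugate

noncomputable section

/-- Periodic signed graph with integral shifts. -/
structure PG (n k : ℕ) where
  edges : ℕ
  source : Fin edges → Fin n
  target : Fin edges → Option (Fin n)
  shift : Fin edges → Fin k → ℤ
  sign : Fin edges → ℤˣ

/-- the character `exp (2 π i a·θ)` -/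
def chr {k : ℕ} (a : Fin k → ℤ) (θ : Fin k → ℝ) : ℂ :=
  Complex.exp (2 * (Real.pi : ℂ) * Complex.I * ((∑ i, (a i : ℝ) * θ i : ℝ) : ℂ))

theorem norm_chr {k : ℕ} (a : Fin k → ℤ) (θ : Fin k → ℝ) : ‖chr a θ‖ = 1 := D_norm_ez _

theorem chr_add {k : ℕ} (a b : Fin k → ℤ) (θ : Fin k → ℝ) :
    chr (a + b) θ = chr a θ * chr b θ := by
  unfold chr
  rw [← Complex.exp_add]
  congr 1
  push_cast
  simp only [Pi.add_apply]
  push_cast
  simp only [add_mul, Finset.sum_add_distrib]
  ring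

theorem chr_zero {k : ℕ} (θ : Fin k → ℝ) : chr (0 : Fin k → ℤ) θ = 1 := by
  unfold chr
  simp

theorem chr_neg {k : ℕ} (a : Fin k → ℤ) (θ : Fin k → ℝ) : chr (-a) θ = conj (chr a θ) := by
  have h1 : chr (-a) θ * chr a θ = 1 := by
    rw [← chr_add, neg_add_cancel, chr_zero]
  have h2 : chr a θ * conj (chr a θ) = 1 := by
    rw [Complex.mul_conj, Complex.normSq_eq_norm_sq, norm_chr]
    norm_num
  have h3 : chr a θ ≠ 0 := by
    rw [← norm_ne_zero_iff, norm_chr]
    exact one_ne_zero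
  apply mul_right_cancel₀ h3
  rw [h1, mul_comm, h2]

theorem tv_monomial {k : ℕ} (p : Fin k →₀ ℕ) (c : ℤ) (θ : Fin k → ℝ) :
    tvHom θ (MvPolynomial.monomial p c) = (c : ℂ) * chr (fun i => (p i : ℤ)) θ := by
  change MvPolynomial.eval _ (MvPolynomial.map _ _) = _
  rw [MvPolynomial.map_monomial, MvPolynomial.eval_monomial]
  congr 1
  rw [Finsupp.prod_fintype _ _ (fun i => pow_zero _)]
  unfold chr
  simp only [← Complex.exp_nat_mul]
  rw [← Complex.exp_sum]
  congr 1
  push_cast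
  rw [Finset.mul_sum]
  refine Finset.sum_congr rfl fun i _ => ?_
  ring

variable {n k : ℕ}

/-- incidence vectors -/
def PG.inc (G : PG n k) (θ : Fin k → ℝ) (f : Fin G.edges) (v : Fin n) : ℂ :=
  (if G.source f = v then 1 else 0) -
    if G.target f = some v then ((G.sign f : ℤˣ) : ℤ) * chr (G.shift f) θ else 0

/-- Laplacian -/
def PG.lap (G : PG n k) (θ : Fin k → ℝ) : Matrix (Fin n) (Fin n) ℂ :=
  Matrix.of fun v w => ∑ f, G.inc θ f v * conj (G.inc θ f w)

def PG.growth (G : PG n k) : ℝ :=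
  Real.exp (∫ θ in Set.Icc (0 : Fin k → ℝ) 1, Real.log ‖(G.lap θ).det‖)

/-- from integral shifts to pairs of natural exponents -/
def PG.toGr (G : PG n k) : Gr n G.edges k where
  s := G.source
  t := G.target
  σ _ := 1
  τ f := - G.sign f
  p f := Finsupp.equivFunOnFinite.symm fun i => (-(G.shift f i)).toNat
  q f := Finsupp.equivFunOnFinite.symm fun i => (G.shift f i).toNat

/-- and back -/
def Gr.toPG {m : ℕ} (G : Gr n m k) : PG n k where
  edges := m
  source := G.s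
  target := G.t
  shift f i := (G.q f i : ℤ) - (G.p f i : ℤ)
  sign f := - (G.σ f * G.τ f)

theorem Gr.ev_eq {m : ℕ} (G : Gr n m k) (θ : Fin k → ℝ) (v : Fin n) (f : Fin m) :
    G.ev θ v f = (((G.σ f : ℤˣ) : ℤ) : ℂ) * chr (fun i => (G.p f i : ℤ)) θ *
      G.toPG.inc θ f v := by
  change tvHom θ (G.mat v f) = _
  unfold Gr.mat PG.inc Gr.toPG
  rw [map_add, mul_sub, sub_eq_add_neg]
  congr 1
  · change _ = _ * (if G.s f = v then (1 : ℂ) else 0)
    split_ifs
    · rw [tv_monomial, mul_one]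
    · rw [map_zero, mul_zero]
  · change _ = -(_ * (if G.t f = some v then
      ((((- (G.σ f * G.τ f) : ℤˣ)) : ℤ) : ℂ) * chr (fun i => (G.q f i : ℤ) - (G.p f i : ℤ)) θ else 0))
    split_ifs
    · rw [tv_monomial]
      have h1 : chr (fun i => (G.q f i : ℤ)) θ = chr (fun i => (G.p f i : ℤ)) θ *
          chr (fun i => (G.q f i : ℤ) - (G.p f i : ℤ)) θ := by
        rw [← chr_add]
        congr 1
        funext i
        simp only [Pi.add_apply]
        ring
      rw [h1]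
      have h2 : (((G.σ f : ℤˣ) : ℤ) : ℂ) * (((G.σ f : ℤˣ) : ℤ) : ℂ) = 1 := by
        rcases Int.units_eq_one_or (G.σ f) with h | h <;> rw [h] <;> simp
      push_cast
      linear_combination (-(((G.τ f : ℤˣ) : ℤ) : ℂ) * chr (fun i => (G.p f i : ℤ)) θ *
        chr (fun i => (G.q f i : ℤ) - (G.p f i : ℤ)) θ) * h2
    · rw [map_zero, mul_zero, neg_zero]

theorem Gr.lap_toPG {m : ℕ} (G : Gr n m k) (θ : Fin k → ℝ) :
    (G.toPG.lap θ) = G.ev θ * (G.ev θ)ᴴ := by
  ext v w
  rw [Matrix.mul_apply]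
  change (∑ f : Fin m, G.toPG.inc θ f v * conj (G.toPG.inc θ f w)) =
    ∑ f : Fin m, G.ev θ v f * star (G.ev θ w f)
  refine Finset.sum_congr rfl fun f _ => ?_
  rw [G.ev_eq θ v f, G.ev_eq θ w f]
  have h1 : (((G.σ f : ℤˣ) : ℤ) : ℂ) * chr (fun i => (G.p f i : ℤ)) θ *
      conj ((((G.σ f : ℤˣ) : ℤ) : ℂ) * chr (fun i => (G.p f i : ℤ)) θ) = 1 := by
    rw [Complex.mul_conj, Complex.normSq_eq_norm_sq, norm_mul, norm_chr]
    rcases Int.units_eq_one_or (G.σ f) with h | h <;> rw [h] <;> simp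
  have h2 : star ((((G.σ f : ℤˣ) : ℤ) : ℂ) * chr (fun i => (G.p f i : ℤ)) θ * G.toPG.inc θ f w) =
      conj ((((G.σ f : ℤˣ) : ℤ) : ℂ) * chr (fun i => (G.p f i : ℤ)) θ) * conj (G.toPG.inc θ f w) :=
    map_mul (starRingEnd ℂ) _ _
  rw [h2]
  linear_combination (-(G.toPG.inc θ f v * conj (G.toPG.inc θ f w))) * h1

theorem Gr.growth_toPG {m : ℕ} (G : Gr n m k) : G.toPG.growth = G.meas := by
  unfold PG.growth Gr.meas Gr.ldet
  simp only [G.lap_toPG]

theorem PG.toPG_toGr (G : PG n k) : G.toGr.toPG = G := by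
  unfold Gr.toPG PG.toGr
  cases G with
  | mk edges source target shift sign =>
    simp only [PG.mk.injEq, heq_eq_eq, true_and]
    refine ⟨?_, ?_⟩
    · funext f i
      simp only [Finsupp.equivFunOnFinite_symm_apply_apply]
      omega
    · funext f
      simp

theorem PG.growth_toGr (G : PG n k) : G.toGr.meas = G.growth := by
  rw [← Gr.growth_toPG, G.toPG_toGr]

theorem PG.lap_toGr (G : PG n k) (θ : Fin k → ℝ) : (G.lap θ).det = G.toGr.ldet θ := by
  have h1 := G.toGr.lap_toPG θ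
  rw [G.toPG_toGr] at h1
  rw [h1]
  rfl

end

end Pool.Agent.W5h6.LG
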