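import Pool.Agent.W5h6.LG.Bin

/-! # Graphs of bounded measure have bounded size after reductions -/

set_option autoImplicit false

namespace Pool.Agent.W5h6.LG

open Matrix MeasureTheory Filter Topology Pool.Agent.H261R2.CM Pool.Agent.W5h6.HS
open scoped ComplexConjugate

noncomputable section

variable {n m k : ℕ}

/-- number of maximal minors which are not zero -/
def Gr.supp (G : Gr n m k) : Finset {J : Fin n → Fin m // StrictMono J} := by
  classical
  exact Finset.univ.filter fun J => G.minor J ≠ 0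

theorem Gr.mem_supp (G : Gr n m k) (J : {J : Fin n → Fin m // StrictMono J}) :
    J ∈ G.supp ↔ G.minor J ≠ 0 := by
  classical
  unfold Gr.supp
  simp

theorem Gr.supp_card_le (G : Gr n m k) (hG : G.Good) : (G.supp.card : ℝ) ≤ G.meas := by
  rw [G.meas_eq]
  exact card_le G.minor hG G.supp G.mem_supp

theorem Gr.minor_sq_le (G : Gr n m k) (J : {J : Fin n → Fin m // StrictMono J})
    (hJ : G.minor J ≠ 0) : mM (G.minor J) ^ 2 ≤ G.meas := by
  rw [G.meas_eq]
  refine le_trans ?_ (sum_sq_le G.minor ⟨J, hJ⟩ G.supp G.mem_supp)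
  exact Finset.single_le_sum (f := fun J => mM (G.minor J) ^ 2) (fun _ _ => by positivity)
    ((G.mem_supp J).mpr hJ)

theorem Gr.exists_sorted (G : Gr n m k) (I : Fin n → Fin m) (hI : (G.mat.submatrix id I).det ≠ 0) :
    ∃ J : {J : Fin n → Fin m // StrictMono J}, J ∈ G.supp ∧ Set.range J.1 = Set.range I := by
  have hinj : Function.Injective I := by
    intro i j hij
    by_contra hne
    apply hI
    refine Matrix.det_zero_of_column_eq hne fun a => ?_
    simp [hij]
  have hsm : StrictMono (I ∘ Tuple.sort I) :=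
    (Tuple.monotone_sort I).strictMono_of_injective (hinj.comp (Tuple.sort I).injective)
  refine ⟨⟨I ∘ Tuple.sort I, hsm⟩, ?_, (Tuple.sort I).surjective.range_comp I⟩
  rw [G.mem_supp]
  unfold Gr.minor
  have h1 : G.mat.submatrix id (I ∘ Tuple.sort I) =
      (G.mat.submatrix id I).submatrix id (Tuple.sort I) := by
    ext a b
    rfl
  change (G.mat.submatrix id (I ∘ Tuple.sort I)).det ≠ 0
  rw [h1, Matrix.det_permute']
  refine mul_ne_zero ?_ hI
  have h2 : IsUnit (((Equiv.Perm.sign (Tuple.sort I) : ℤˣ) : ℤ)) := Units.isUnit _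
  rcases Int.isUnit_iff.mp h2 with h3 | h3 <;> rw [h3] <;> simp

/-- coordinates of the columns in a basis, multiplied by the minor of the basis -/
def Gr.crd (G : Gr n m k) (J : Fin n → Fin m) (b : Fin n) (f : Fin m) : MvPolynomial (Fin k) ℤ :=
  (G.mat.submatrix id (Function.update J b f)).det

theorem Gr.crd_eq (G : Gr n m k) (J : Fin n → Fin m) (b : Fin n) (f : Fin m) :
    G.crd J b f = Matrix.cramer (G.mat.submatrix id J) (fun u => G.mat u f) b := by
  rw [Matrix.cramer_apply]
  unfold Gr.crd
  congr 1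
  ext i j
  by_cases hj : j = b
  · subst hj
    simp
  · rw [Matrix.updateCol_ne hj]
    simp [Function.update_of_ne hj]

theorem Gr.crd_zero (G : Gr n m k) (J : Fin n → Fin m) {b b' : Fin n} (hbb : b' ≠ b) :
    G.crd J b (J b') = 0 := by
  unfold Gr.crd
  refine Matrix.det_zero_of_column_eq hbb fun a => ?_
  simp [Function.update_of_ne hbb]

theorem Gr.exists_crd (G : Gr n m k) (J : Fin n → Fin m) (hJ : (G.mat.submatrix id J).det ≠ 0)
    (f : Fin m) (hf : ∃ u, G.mat u f ≠ 0) : ∃ b, G.crd J b f ≠ 0 := by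
  by_contra hcon
  push Not at hcon
  have h1 := Matrix.mulVec_cramer (G.mat.submatrix id J) (fun u => G.mat u f)
  have h2 : Matrix.cramer (G.mat.submatrix id J) (fun u => G.mat u f) = 0 := by
    ext b
    rw [← G.crd_eq, hcon b]
    rfl
  rw [h2, Matrix.mulVec_zero] at h1
  obtain ⟨u, hu⟩ := hf
  have h3 := congrFun h1 u
  simp only [Pi.zero_apply, Pi.smul_apply, smul_eq_mul] at h3
  exact (mul_ne_zero hJ hu) h3.symm

/-- a basis element whose coordinate vanishes on all other columns is in all bases -/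
theorem Gr.coloop_of_crd (G : Gr n m k) (J : Fin n → Fin m)
    (hJ : (G.mat.submatrix id J).det ≠ 0) (b : Fin n) (hb : ∀ f, f ≠ J b → G.crd J b f = 0) :
    G.Coloop (J b) := by
  intro θ
  rw [gram_det]
  norm_cast
  refine Finset.sum_eq_zero fun I _ => ?_
  have h1 : (((G.ev θ).updateCol (J b) 0).submatrix id I.1).det = 0 := by
    by_cases hI : ∃ i, I.1 i = J b
    · obtain ⟨i, hi⟩ := hI
      refine Matrix.det_eq_zero_of_column_eq_zero i fun a => ?_
      rw [Matrix.submatrix_apply, hi, Matrix.updateCol_self]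
      rfl
    · push Not at hI
      have h2 : ((G.ev θ).updateCol (J b) 0).submatrix id I.1 = (G.mat.submatrix id I.1).map (tvHom θ) := by
        ext a i
        rw [Matrix.submatrix_apply, Matrix.updateCol_ne (hI i)]
        rfl
      rw [h2, ← tv_det]
      have h3 : (G.mat.submatrix id I.1).det = 0 := by
        have h4 : ((G.mat.submatrix id J).adjugate * G.mat.submatrix id I.1).det = 0 := by
          refine Matrix.det_eq_zero_of_row_eq_zero b fun j => ?_
          have h5 := G.crd_eq J b (I.1 j)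
          rw [hb _ (hI j), Matrix.cramer_eq_adjugate_mulVec] at h5
          rw [Matrix.mul_apply]
          exact h5.symm
        rw [Matrix.det_mul, Matrix.det_adjugate] at h4
        exact (mul_eq_zero.mp h4).resolve_left (pow_ne_zero _ hJ)
      rw [h3, tv_zero]
  rw [h1]
  simp

theorem Gr.count_in (G : Gr n m k) (J : Fin n → Fin m)
    (hJ : (G.mat.submatrix id J).det ≠ 0) (S : Finset (Fin n))
    (hS : ∀ b ∈ S, ∃ f, f ∉ Set.range J ∧ G.crd J b f ≠ 0) : S.card + 1 ≤ G.supp.card := by
  classical
  have hinj : Function.Injective J := by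
    intro i j hij
    by_contra hne
    apply hJ
    refine Matrix.det_zero_of_column_eq hne fun a => ?_
    simp [hij]
  have h0 : ∃ I : {J : Fin n → Fin m // StrictMono J}, I ∈ G.supp ∧ Set.range I.1 = Set.range J :=
    G.exists_sorted J hJ
  have hx : ∀ b : S, ∃ I : {J : Fin n → Fin m // StrictMono J}, I ∈ G.supp ∧
      ∀ b', J b' ∈ Set.range I.1 ↔ b' ≠ b.1 := by
    rintro ⟨b, hb⟩
    obtain ⟨f, hf, hne⟩ := hS b hb
    obtain ⟨I, hI, hr⟩ := G.exists_sorted _ hne
    refine ⟨I, hI, fun b' => ?_⟩
    rw [hr]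
    constructor
    · rintro ⟨i, hi⟩ rfl
      by_cases hib : i = b'
      · subst hib
        rw [Function.update_self] at hi
        exact hf ⟨i, hi.symm⟩
      · rw [Function.update_of_ne hib] at hi
        exact hib (hinj hi)
    · intro h1
      exact ⟨b', by rw [Function.update_of_ne h1]⟩
  obtain ⟨I0, hI0, hr0⟩ := h0
  choose I hI hr using hx
  have hcard : Fintype.card (Option S) ≤ Fintype.card G.supp := by
    refine Fintype.card_le_of_injective
      (fun o : Option S => (o.elim ⟨I0, hI0⟩ fun b => ⟨I b, hI b⟩ : G.supp)) ?_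
    intro o1 o2 h12
    rcases o1 with _ | b1 <;> rcases o2 with _ | b2
    · rfl
    · exfalso
      simp only [Option.elim, Subtype.mk.injEq] at h12
      have h3 := (hr b2 b2.1).mp (by rw [← h12, hr0]; exact ⟨b2.1, rfl⟩)
      exact h3 rfl
    · exfalso
      simp only [Option.elim, Subtype.mk.injEq] at h12
      have h3 := (hr b1 b1.1).mp (by rw [h12, hr0]; exact ⟨b1.1, rfl⟩)
      exact h3 rfl
    · simp only [Option.elim, Subtype.mk.injEq] at h12
      congr 1
      by_contra hne
      have h3 : b1.1 ≠ b2.1 := fun h => hne (Subtype.ext h)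
      have h4 := (hr b2 b1.1).mpr h3
      rw [← h12] at h4
      exact (hr b1 b1.1).mp h4 rfl
  simpa [Fintype.card_option] using hcard

theorem Gr.count_out (G : Gr n m k) (J : Fin n → Fin m)
    (hJ : (G.mat.submatrix id J).det ≠ 0) (T : Finset (Fin m))
    (hT : ∀ f ∈ T, f ∉ Set.range J ∧ ∃ b, G.crd J b f ≠ 0) : T.card + 1 ≤ G.supp.card := by
  classical
  obtain ⟨I0, hI0, hr0⟩ := G.exists_sorted J hJ
  have hx : ∀ f : T, ∃ I : {J : Fin n → Fin m // StrictMono J}, I ∈ G.supp ∧
      ∀ f' : T, f'.1 ∈ Set.range I.1 ↔ f' = f := by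
    rintro ⟨f, hf⟩
    obtain ⟨_, b, hne⟩ := hT f hf
    obtain ⟨I, hI, hr⟩ := G.exists_sorted _ hne
    refine ⟨I, hI, fun f' => ?_⟩
    rw [hr]
    constructor
    · rintro ⟨i, hi⟩
      by_cases hib : i = b
      · subst hib
        rw [Function.update_self] at hi
        exact Subtype.ext hi.symm
      · rw [Function.update_of_ne hib] at hi
        exact absurd ⟨i, hi⟩ (hT f'.1 f'.2).1
    · rintro rfl
      exact ⟨b, by rw [Function.update_self]⟩
  choose I hI hr using hx
  have hcard : Fintype.card (Option T) ≤ Fintype.card G.supp := by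
    refine Fintype.card_le_of_injective
      (fun o : Option T => (o.elim ⟨I0, hI0⟩ fun b => ⟨I b, hI b⟩ : G.supp)) ?_
    intro o1 o2 h12
    rcases o1 with _ | b1 <;> rcases o2 with _ | b2
    · rfl
    · exfalso
      simp only [Option.elim, Subtype.mk.injEq] at h12
      have h3 := (hr b2 b2).mpr rfl
      rw [← h12, hr0] at h3
      exact (hT b2.1 b2.2).1 h3
    · exfalso
      simp only [Option.elim, Subtype.mk.injEq] at h12
      have h3 := (hr b1 b1).mpr rfl
      rw [h12, hr0] at h3
      exact (hT b1.1 b1.2).1 h3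
    · simp only [Option.elim, Subtype.mk.injEq] at h12
      have h4 := (hr b1 b1).mpr rfl
      rw [h12] at h4
      rw [(hr b2 b1).mp h4]
  simpa [Fintype.card_option] using hcard

/-- two basis columns cannot be supported at the same vertex -/
theorem Gr.parallel (G : Gr n m k) (J : Fin n → Fin m) (hJ : (G.mat.submatrix id J).det ≠ 0)
    {b b' : Fin n} (hbb : b ≠ b') (u : Fin n) (h1 : ∀ w, w ≠ u → G.mat w (J b) = 0)
    (h2 : ∀ w, w ≠ u → G.mat w (J b') = 0) : False := by
  classical
  have hmul : ∀ (x : MvPolynomial (Fin k) ℤ) (v : Fin n → MvPolynomial (Fin k) ℤ),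
      ((G.mat.submatrix id J).updateCol b (x • v)).det =
        x * ((G.mat.submatrix id J).updateCol b v).det := fun x v => Matrix.det_updateCol_smul _ _ _ _
  have hzero : ((G.mat.submatrix id J).updateCol b (fun w => G.mat w (J b'))).det = 0 := by
    refine Matrix.det_zero_of_column_eq hbb fun a => ?_
    rw [Matrix.updateCol_self, Matrix.updateCol_ne (Ne.symm hbb)]
    rfl
  have h3 : (G.mat u (J b')) • (fun w => G.mat w (J b)) = (G.mat u (J b)) • fun w => G.mat w (J b') := by
    ext1 w
    simp only [Pi.smul_apply, smul_eq_mul]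
    by_cases hw : w = u
    · subst hw
      ring
    · rw [h1 w hw, h2 w hw, mul_zero, mul_zero]
  have h4 := hmul (G.mat u (J b')) (fun w => G.mat w (J b))
  rw [h3, hmul, hzero, mul_zero] at h4
  have h5 : (G.mat.submatrix id J).updateCol b (fun w => G.mat w (J b)) = G.mat.submatrix id J := by
    ext i j
    by_cases hj : j = b
    · subst hj
      rw [Matrix.updateCol_self]
      rfl
    · rw [Matrix.updateCol_ne hj]
  rw [h5] at h4
  have h6 : G.mat u (J b') = 0 := (mul_eq_zero.mp h4.symm).resolve_right hJ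
  apply hJ
  refine Matrix.det_eq_zero_of_column_eq_zero b' fun a => ?_
  rw [Matrix.submatrix_apply]
  by_cases ha : a = u
  · subst ha
    exact h6
  · exact h2 a ha

/-- columns divisible by two -/
theorem Gr.two_dvd (G : Gr n m k) (J : Fin n → Fin m) (S : Finset (Fin n))
    (hS : ∀ b ∈ S, ∀ u, ∃ w, G.mat u (J b) = 2 * w) :
    ∃ w, (G.mat.submatrix id J).det = 2 ^ S.card * w := by
  classical
  have h1 : ∀ u b, ∃ w, G.mat u (J b) = (if b ∈ S then 2 else 1) * w := by
    intro u b
    by_cases hb : b ∈ S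
    · obtain ⟨w, hw⟩ := hS b hb u
      exact ⟨w, by rw [if_pos hb, hw]⟩
    · exact ⟨G.mat u (J b), by rw [if_neg hb, one_mul]⟩
  choose W hW using h1
  refine ⟨(Matrix.of W).det, ?_⟩
  have h2 : G.mat.submatrix id J = Matrix.of fun i j => (if j ∈ S then 2 else 1) * (Matrix.of W) i j := by
    ext i j
    rw [Matrix.submatrix_apply, id, hW]
    rfl
  rw [h2, Matrix.det_mul_row]
  congr 1
  rw [Finset.prod_ite_mem, Finset.univ_inter, Finset.prod_const]

theorem mM_two_pow (a : ℕ) : mM ((2 : MvPolynomial (Fin k) ℤ) ^ a) = 2 ^ a := by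
  unfold mM
  have h3 : ∀ t, tv ((2 : MvPolynomial (Fin k) ℤ) ^ a) t = 2 ^ a := fun t => by simp [tv]
  simp only [h3]
  rw [cube_const]
  simp only [norm_pow, Complex.norm_ofNat]
  rw [Real.exp_log (by positivity)]

end

end Pool.Agent.W5h6.LG
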