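import Pool.Agent.W5h6.LG.Dom

/-! # Diagonally dominant Hermitian matrices are Laplacians of signed periodic graphs -/

set_option autoImplicit false

namespace Pool.Agent.W5h6.LG

open Matrix
open scoped ComplexConjugate

noncomputable section

variable {n k : ℕ}

theorem EM_apply (s : Fin n) (t : Option (Fin n)) (a : Fin k → ℤ) (ε : ℤˣ) (v w : Fin n)
    (b : Fin k → ℤ) : EM s t a ε v w b =
      (if s = v ∧ s = w ∧ b = 0 then 1 else 0) +
      (if t = some v ∧ t = some w ∧ b = 0 then 1 else 0) -
      (if s = v ∧ t = some w ∧ b = -a then (ε : ℤ) else 0) -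
      (if t = some v ∧ s = w ∧ b = a then (ε : ℤ) else 0) := by
  classical
  unfold EM
  rw [Matrix.of_apply, Finsupp.sub_apply, Finsupp.sub_apply, Finsupp.add_apply]
  have e : ∀ (P Q : Prop) [Decidable P] [Decidable Q] (c : Fin k → ℤ) (x : ℤ),
      (if P ∧ Q then Finsupp.single c x else 0 : LP k) b = if P ∧ Q ∧ b = c then x else 0 := by
    intro P Q _ _ c x
    by_cases hP : P <;> by_cases hQ : Q <;> simp only [hP, hQ, true_and, false_and, and_false,
      if_true, if_false, Finsupp.zero_apply]
    rw [Finsupp.single_apply]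
    simp only [eq_comm]
  rw [e, e, e, e]

theorem herm_EM (s : Fin n) (t : Option (Fin n)) (a : Fin k → ℤ) (ε : ℤˣ) : Herm (EM s t a ε) := by
  intro v w b
  rw [EM_apply, EM_apply]
  have e1 : (-b = 0) = (b = 0) := propext neg_eq_zero
  have e2 : (-b = -a) = (b = a) := propext neg_inj
  have e3 : (-b = a) = (b = -a) := propext neg_eq_iff_eq_neg
  simp only [e1, e2, e3]
  have e0 : ∀ P Q R : Prop, (P ∧ Q ∧ R) = (Q ∧ P ∧ R) := fun P Q R =>
    propext ⟨fun h => ⟨h.2.1, h.1, h.2.2⟩, fun h => ⟨h.2.1, h.1, h.2.2⟩⟩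
  have e4 : (s = w ∧ s = v ∧ b = 0) = (s = v ∧ s = w ∧ b = 0) := e0 _ _ _
  have e5 : (t = some w ∧ t = some v ∧ b = 0) = (t = some v ∧ t = some w ∧ b = 0) := e0 _ _ _
  have e6 : (s = w ∧ t = some v ∧ b = a) = (t = some v ∧ s = w ∧ b = a) := e0 _ _ _
  have e7 : (t = some w ∧ s = v ∧ b = -a) = (s = v ∧ t = some w ∧ b = -a) := e0 _ _ _
  have h4 : (if s = w ∧ s = v ∧ b = 0 then (1 : ℤ) else 0) =
      if s = v ∧ s = w ∧ b = 0 then 1 else 0 := by simp only [e4]
  have h5 : (if t = some w ∧ t = some v ∧ b = 0 then (1 : ℤ) else 0) =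
      if t = some v ∧ t = some w ∧ b = 0 then 1 else 0 := by simp only [e5]
  have h6 : (if s = w ∧ t = some v ∧ b = a then (ε : ℤ) else 0) =
      if t = some v ∧ s = w ∧ b = a then (ε : ℤ) else 0 := by simp only [e6]
  have h7 : (if t = some w ∧ s = v ∧ b = -a then (ε : ℤ) else 0) =
      if s = v ∧ t = some w ∧ b = -a then (ε : ℤ) else 0 := by simp only [e7]
  rw [h4, h5, h6, h7]
  ring

theorem unit_abs (ε : ℤˣ) : |((ε : ℤˣ) : ℤ)| = 1 := by
  rcases Int.units_eq_one_or ε with h | h <;> rw [h] <;> simp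

theorem l1_EM_le (s : Fin n) (t : Option (Fin n)) (a : Fin k → ℤ) (ε : ℤˣ) (v w : Fin n) :
    l1 (EM s t a ε v w) ≤ (if s = v ∧ s = w then 1 else 0) +
      (if t = some v ∧ t = some w then 1 else 0) + (if s = v ∧ t = some w then 1 else 0) +
      (if t = some v ∧ s = w then 1 else 0) := by
  unfold EM
  rw [Matrix.of_apply, sub_eq_add_neg, sub_eq_add_neg]
  refine (l1_add_le _ _).trans (add_le_add ((l1_add_le _ _).trans (add_le_add
    ((l1_add_le _ _).trans (add_le_add ?_ ?_)) ?_)) ?_)
  · split_ifs
    · rw [l1_single]; simp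
    · rw [l1_zero]
  · split_ifs
    · rw [l1_single]; simp
    · rw [l1_zero]
  · rw [l1_neg]
    split_ifs
    · rw [l1_single, unit_abs]
    · rw [l1_zero]
  · rw [l1_neg]
    split_ifs
    · rw [l1_single, unit_abs]
    · rw [l1_zero]

theorem dom_EM (s : Fin n) (t : Option (Fin n)) (a : Fin k → ℤ) (ε : ℤˣ) : Dom (EM s t a ε) := by
  classical
  intro v
  have hle : ∑ w, l1 (EM s t a ε v w) ≤ ∑ w, ((if s = v ∧ s = w then 1 else 0) +
      (if t = some v ∧ t = some w then 1 else 0) + (if s = v ∧ t = some w then 1 else 0) +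
      (if t = some v ∧ s = w then 1 else 0)) := Finset.sum_le_sum fun w _ => l1_EM_le s t a ε v w
  simp only [Finset.sum_add_distrib, ite_and] at hle
  rcases t with _ | r
  · simp only [reduceCtorEq, if_false, Finset.sum_const_zero, add_zero, Finset.sum_ite_irrel,
      Finset.sum_ite_eq, Finset.mem_univ, if_true, ite_self] at hle
    rw [EM_apply]
    simp only [reduceCtorEq, false_and, and_false, if_false, and_true]
    refine hle.trans ?_
    split_ifs <;> simp_all
  · have hr : ∀ x, ((some r : Option (Fin n)) = some x) = (r = x) := fun x =>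
      propext (Option.some_inj)
    simp only [hr] at hle
    simp only [Finset.sum_ite_irrel, Finset.sum_ite_eq, Finset.mem_univ, if_true,
      Finset.sum_const_zero] at hle
    by_cases hdeg : s = r ∧ a = 0
    · obtain ⟨rfl, rfl⟩ := hdeg
      by_cases hsv : s = v
      · subst hsv
        rcases Int.units_eq_one_or ε with h | h
        · subst h
          have h0 : ∀ w, EM s (some s) (0 : Fin k → ℤ) 1 s w = 0 := by
            intro w
            unfold EM
            rw [Matrix.of_apply]
            simp only [hr, neg_zero, Units.val_one, true_and]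
            abel
          simp only [h0, l1_zero, Finset.sum_const_zero, Finsupp.zero_apply, mul_zero, le_refl]
        · subst h
          refine hle.trans ?_
          rw [EM_apply]
          simp
      · refine hle.trans ?_
        rw [EM_apply]
        simp [hsv]
    · refine hle.trans ?_
      rw [EM_apply]
      simp only [hr]
      have h3 : ¬ (s = v ∧ r = v ∧ (0 : Fin k → ℤ) = -a) := by
        rintro ⟨h1, h2, h3⟩
        exact hdeg ⟨h1.trans h2.symm, neg_eq_zero.mp h3.symm⟩
      have h4 : ¬ (r = v ∧ s = v ∧ (0 : Fin k → ℤ) = a) := by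
        rintro ⟨h1, h2, h3⟩
        exact hdeg ⟨h2.trans h1.symm, h3.symm⟩
      rw [if_neg h3, if_neg h4]
      by_cases h1 : s = v <;> by_cases h2 : r = v <;> simp [h1, h2]

/-- for edges which are not half-edges nor trivial loops the inequality is an equality -/
theorem EM_full (s r : Fin n) (a : Fin k → ℤ) (ε : ℤˣ) (h : ¬ (s = r ∧ a = 0)) (v : Fin n) :
    2 * EM s (some r) a ε v v 0 ≤ ∑ w, l1 (EM s (some r) a ε v w) := by
  classical
  have hr : ∀ x, ((some r : Option (Fin n)) = some x) = (r = x) := fun x =>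
    propext (Option.some_inj)
  have h0 : EM s (some r) a ε v v 0 = (if s = v then 1 else 0) + (if r = v then 1 else 0) := by
    rw [EM_apply]
    simp only [hr]
    have h3 : ¬ (s = v ∧ r = v ∧ (0 : Fin k → ℤ) = -a) := by
      rintro ⟨h1, h2, h3⟩
      exact h ⟨h1.trans h2.symm, neg_eq_zero.mp h3.symm⟩
    have h4 : ¬ (r = v ∧ s = v ∧ (0 : Fin k → ℤ) = a) := by
      rintro ⟨h1, h2, h3⟩
      exact h ⟨h2.trans h1.symm, h3.symm⟩
    rw [if_neg h3, if_neg h4]
    simp
  rw [h0]
  by_cases h1 : s = v
  · subst h1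
    by_cases h2 : r = s
    · subst h2
      have ha : a ≠ 0 := fun ha => h ⟨rfl, ha⟩
      have hna : a ≠ -a := by
        intro h5
        apply ha
        funext i
        have := congrFun h5 i
        simp only [Pi.neg_apply, Pi.zero_apply] at this ⊢
        omega
      have h3 := abs_three_le_l1 (EM r (some r) a ε r r) (a := 0) (b := a) (c := -a) (Ne.symm ha)
        (by rw [ne_eq, eq_comm, neg_eq_zero]; exact ha) hna
      have h4 : l1 (EM r (some r) a ε r r) ≤ ∑ w, l1 (EM r (some r) a ε r w) :=
        Finset.single_le_sum (f := fun w => l1 (EM r (some r) a ε r w))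
          (fun _ _ => l1_nonneg _) (Finset.mem_univ r)
      rw [h0, EM_apply, EM_apply] at h3
      simp only [true_and, ha, hna, hna.symm, neg_eq_zero, if_true, if_false] at h3
      have h5 := unit_abs ε
      simp only [zero_sub, add_zero, sub_zero, abs_neg, h5] at h3
      norm_num at h3 ⊢
      linarith
    · have h3 := abs_le_l1 (EM s (some r) a ε s s) 0
      have h4 := abs_le_l1 (EM s (some r) a ε s r) (-a)
      rw [h0] at h3
      rw [EM_apply] at h4
      have h2' : s ≠ r := fun h => h2 h.symm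
      simp only [h2, h2', hr, false_and, and_false, and_self, if_true, if_false, zero_sub, add_zero,
        sub_zero, abs_neg, unit_abs] at h3 h4 ⊢
      have h5 : l1 (EM s (some r) a ε s s) + l1 (EM s (some r) a ε s r) ≤
          ∑ w, l1 (EM s (some r) a ε s w) := by
        rw [← Finset.sum_pair (f := fun w => l1 (EM s (some r) a ε s w)) h2']
        exact Finset.sum_le_sum_of_subset_of_nonneg (Finset.subset_univ _)
          (fun _ _ _ => l1_nonneg _)
      norm_num at h3 ⊢
      linarith
  · by_cases h2 : r = v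
    · subst h2
      have h3 := abs_le_l1 (EM s (some r) a ε r r) 0
      have h4 := abs_le_l1 (EM s (some r) a ε r s) a
      rw [h0] at h3
      rw [EM_apply] at h4
      have h2' : r ≠ s := fun h => h1 h.symm
      simp only [h1, h2', hr, false_and, and_false, and_self, if_true, if_false, zero_sub, add_zero,
        zero_add, sub_zero, abs_neg, unit_abs] at h3 h4 ⊢
      have h5 : l1 (EM s (some r) a ε r r) + l1 (EM s (some r) a ε r s) ≤
          ∑ w, l1 (EM s (some r) a ε r w) := by
        rw [← Finset.sum_pair (f := fun w => l1 (EM s (some r) a ε r w)) h2']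
        exact Finset.sum_le_sum_of_subset_of_nonneg (Finset.subset_univ _)
          (fun _ _ _ => l1_nonneg _)
      norm_num at h3 ⊢
      linarith
    · rw [if_neg h1, if_neg h2]
      simp only [add_zero, mul_zero]
      exact Finset.sum_nonneg fun _ _ => l1_nonneg _

theorem conf (x e : ℤ) (h : e = 0 ∨ (0 < e ∧ e ≤ x) ∨ (e < 0 ∧ x ≤ e)) :
    |x| = |e| + |x - e| := by
  rcases h with h | ⟨h1, h2⟩ | ⟨h1, h2⟩
  · rw [h]
    simp
  · rw [abs_of_pos h1, abs_of_nonneg (by linarith), abs_of_nonneg (by linarith)]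
    ring
  · rw [abs_of_neg h1, abs_of_nonpos (by linarith), abs_of_nonpos (by linarith)]
    ring

/-- subtraction of an edge -/
theorem sub_dom {H E : Matrix (Fin n) (Fin n) (LP k)} (hH : Dom H)
    (hE : ∀ v, 2 * E v v 0 ≤ ∑ w, l1 (E v w))
    (hc : ∀ v w b, |H v w b| = |E v w b| + |H v w b - E v w b|) : Dom (H - E) := by
  intro v
  have h1 : ∀ w, l1 ((H - E) v w) = l1 (H v w) - l1 (E v w) := fun w =>
    l1_sub_of (H v w) (E v w) (hc v w)
  rw [Finset.sum_congr rfl fun w _ => h1 w, Finset.sum_sub_distrib, Matrix.sub_apply,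
    Finsupp.sub_apply]
  linarith [hH v, hE v]

theorem sub_herm {H E : Matrix (Fin n) (Fin n) (LP k)} (hH : Herm H) (hE : Herm E) :
    Herm (H - E) := by
  intro v w a
  rw [Matrix.sub_apply, Matrix.sub_apply, Finsupp.sub_apply, Finsupp.sub_apply, hH, hE]

theorem diag_nonneg {H : Matrix (Fin n) (Fin n) (LP k)} (hH : Dom H) (v : Fin n) :
    0 ≤ H v v 0 := by
  have h1 := hH v
  have h2 : 0 ≤ ∑ w, l1 (H v w) := Finset.sum_nonneg fun _ _ => l1_nonneg _
  linarith

/-- an off-diagonal coefficient can be removed -/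
theorem step_off {H : Matrix (Fin n) (Fin n) (LP k)} (hH : Herm H) (hD : Dom H) {v w : Fin n}
    {a : Fin k → ℤ} (hc : H v w a ≠ 0) (hvw : ¬ (v = w ∧ a = 0)) :
    ∃ ε : ℤˣ, Herm (H - EM v (some w) (-a) ε) ∧ Dom (H - EM v (some w) (-a) ε) := by
  classical
  obtain ⟨ε, hε⟩ : ∃ ε : ℤˣ, (0 < H v w a ∧ (ε : ℤ) = -1) ∨ (H v w a < 0 ∧ (ε : ℤ) = 1) := by
    rcases lt_or_gt_of_ne hc with h | h
    · exact ⟨1, Or.inr ⟨h, rfl⟩⟩
    · exact ⟨-1, Or.inl ⟨h, rfl⟩⟩
  refine ⟨ε, sub_herm hH (herm_EM _ _ _ _), sub_dom hD (EM_full v w (-a) ε (by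
    rintro ⟨h1, h2⟩
    exact hvw ⟨h1, neg_eq_zero.mp h2⟩)) ?_⟩
  have hr : ∀ x, ((some w : Option (Fin n)) = some x) = (w = x) := fun x =>
    propext (Option.some_inj)
  have hsym : H w v (-a) = H v w a := hH v w a
  intro v' w' b
  refine conf _ _ ?_
  rw [EM_apply]
  simp only [hr, neg_neg]
  by_cases hvw' : v = w
  · subst hvw'
    have ha : a ≠ 0 := fun ha => hvw ⟨rfl, ha⟩
    have hna : a ≠ -a := by
      intro h5
      apply ha
      funext i
      have := congrFun h5 i
      simp only [Pi.neg_apply, Pi.zero_apply] at this ⊢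
      omega
    have h2 : 2 ≤ H v v 0 := by
      have h3 := abs_three_le_l1 (H v v) (a := 0) (b := a) (c := -a) (Ne.symm ha)
        (by rw [ne_eq, eq_comm, neg_eq_zero]; exact ha) hna
      have h4 : l1 (H v v) ≤ ∑ w, l1 (H v w) :=
        Finset.single_le_sum (f := fun w => l1 (H v w)) (fun _ _ => l1_nonneg _) (Finset.mem_univ v)
      have h5 := hD v
      rw [hsym] at h3
      have h6 : 1 ≤ |H v v a| := Int.one_le_abs hc
      have h7 := le_abs_self (H v v 0)
      linarith
    by_cases h1 : v = v' ∧ v = w'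
    · obtain ⟨rfl, rfl⟩ := h1
      simp only [true_and]
      by_cases hb0 : b = 0
      · subst hb0
        right; left
        simp only [if_true, if_neg (Ne.symm ha), if_neg (show (0 : Fin k → ℤ) ≠ -a by
          rw [ne_eq, eq_comm, neg_eq_zero]; exact ha)]
        omega
      · by_cases hba : b = a
        · subst hba
          simp only [hb0, if_false, if_true, if_neg hna]
          omega
        · by_cases hbna : b = -a
          · subst hbna
            rw [hsym]
            simp only [hb0, hba, if_false, if_true]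
            omega
          · simp only [hb0, hba, hbna, if_false]
            omega
    · left
      have e1 : ∀ c, ¬ (v = v' ∧ v = w' ∧ b = c) := fun c h => h1 ⟨h.1, h.2.1⟩
      simp only [e1, if_false]
      ring
  · have hwv' : w ≠ v := Ne.symm hvw'
    have hvv : 1 ≤ H v v 0 := by
      have h3 := abs_le_l1 (H v v) 0
      have h4 := abs_le_l1 (H v w) a
      have h5 : l1 (H v v) + l1 (H v w) ≤ ∑ w', l1 (H v w') := by
        rw [← Finset.sum_pair (f := fun w' => l1 (H v w')) hvw']
        exact Finset.sum_le_sum_of_subset_of_nonneg (Finset.subset_univ _)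
          (fun _ _ _ => l1_nonneg _)
      have h6 : 1 ≤ |H v w a| := Int.one_le_abs hc
      have h7 := le_abs_self (H v v 0)
      have h8 := hD v
      linarith
    have hww : 1 ≤ H w w 0 := by
      have h3 := abs_le_l1 (H w w) 0
      have h4 := abs_le_l1 (H w v) (-a)
      rw [hsym] at h4
      have h5 : l1 (H w w) + l1 (H w v) ≤ ∑ w', l1 (H w w') := by
        rw [← Finset.sum_pair (f := fun w' => l1 (H w w')) hwv']
        exact Finset.sum_le_sum_of_subset_of_nonneg (Finset.subset_univ _)
          (fun _ _ _ => l1_nonneg _)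
      have h6 : 1 ≤ |H v w a| := Int.one_le_abs hc
      have h7 := le_abs_self (H w w 0)
      have h8 := hD w
      linarith
    by_cases h1 : v = v'
    · subst h1
      simp only [hwv', false_and, if_false, true_and, add_zero, sub_zero]
      by_cases h2 : v = w'
      · subst h2
        simp only [hwv', true_and, false_and, if_false, sub_zero]
        split_ifs with hb
        · subst hb
          omega
        · omega
      · simp only [h2, false_and, if_false, zero_sub]
        by_cases h3 : w = w' ∧ b = a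
        · obtain ⟨rfl, rfl⟩ := h3
          simp only [and_self, if_true]
          omega
        · rw [if_neg h3]
          omega
    · simp only [h1, false_and, if_false, zero_add, sub_zero]
      by_cases h4 : w = v'
      · subst h4
        simp only [true_and]
        by_cases h2 : w = w'
        · subst h2
          simp only [hvw', true_and, false_and, if_false, sub_zero]
          split_ifs with hb
          · subst hb
            omega
          · omega
        · simp only [h2, false_and, if_false, zero_sub]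
          by_cases h3 : v = w' ∧ b = -a
          · obtain ⟨rfl, rfl⟩ := h3
            rw [hsym]
            simp only [and_self, if_true]
            omega
          · rw [if_neg h3]
            omega
      · simp only [h4, false_and, if_false]
        omega

/-- if there are no off-diagonal coefficients, a half-edge can be removed -/
theorem step_diag {H : Matrix (Fin n) (Fin n) (LP k)} (hH : Herm H) (hD : Dom H)
    (hoff : ∀ v w a, H v w a ≠ 0 → v = w ∧ a = 0) {v : Fin n} (hv : H v v 0 ≠ 0) :
    Herm (H - EM v none 0 1) ∧ Dom (H - EM v none 0 1) := by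
  classical
  have hpos : 1 ≤ H v v 0 := by
    have := diag_nonneg hD v
    omega
  refine ⟨sub_herm hH (herm_EM _ _ _ _), ?_⟩
  have hEM : ∀ v' w' b, EM v none (0 : Fin k → ℤ) 1 v' w' b =
      if v = v' ∧ v = w' ∧ b = 0 then 1 else 0 := by
    intro v' w' b
    rw [EM_apply]
    simp
  intro v'
  have h1 : ∀ w', (H - EM v none (0 : Fin k → ℤ) 1) v' w' =
      if v' = w' then Finsupp.single 0 (H v' v' 0 - EM v none (0 : Fin k → ℤ) 1 v' v' 0) else 0 := by
    intro w'
    ext b
    rw [Matrix.sub_apply, Finsupp.sub_apply, hEM]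
    by_cases h2 : v' = w'
    · subst h2
      rw [if_pos rfl, Finsupp.single_apply, hEM]
      by_cases hb : b = 0
      · subst hb
        simp
      · rw [if_neg (Ne.symm hb)]
        have h3 : H v' v' b = 0 := by
          by_contra h4
          exact hb (hoff _ _ _ h4).2
        rw [h3]
        simp [hb]
    · rw [if_neg h2, Finsupp.zero_apply]
      have h3 : H v' w' b = 0 := by
        by_contra h4
        exact h2 (hoff _ _ _ h4).1
      rw [h3, if_neg]
      · rfl
      · rintro ⟨rfl, rfl, _⟩
        exact h2 rfl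
  simp only [h1]
  rw [Finset.sum_eq_single v']
  · rw [if_pos rfl, if_pos trivial, l1_single, Finsupp.single_eq_same]
    have h4 : 0 ≤ H v' v' 0 - EM v none (0 : Fin k → ℤ) 1 v' v' 0 := by
      rw [hEM]
      have h5 := diag_nonneg hD v'
      split_ifs with h6
      · obtain ⟨rfl, _⟩ := h6
        omega
      · omega
    rw [abs_of_nonneg h4]
    linarith
  · intro w' _ hw'
    rw [if_neg (Ne.symm hw'), l1_zero]
  · intro h2
    exact absurd (Finset.mem_univ v') h2

/-- decomposition into edges -/
theorem decomp : ∀ (N : ℕ) (H : Matrix (Fin n) (Fin n) (LP k)), Herm H → Dom H →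
    ∑ v, H v v 0 ≤ N → ∃ (m : ℕ) (s : Fin m → Fin n) (t : Fin m → Option (Fin n))
      (a : Fin m → Fin k → ℤ) (ε : Fin m → ℤˣ), H = ∑ f, EM (s f) (t f) (a f) (ε f) := by
  classical
  intro N
  induction N with
  | zero =>
    intro H hH hD hN
    refine ⟨0, Fin.elim0, Fin.elim0, Fin.elim0, Fin.elim0, ?_⟩
    rw [Finset.univ_eq_empty, Finset.sum_empty]
    have h1 : ∀ v, H v v 0 = 0 := by
      intro v
      have h2 := diag_nonneg hD v
      have h3 : H v v 0 ≤ ∑ v, H v v 0 :=
        Finset.single_le_sum (f := fun v => H v v 0) (fun v _ => diag_nonneg hD v)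
          (Finset.mem_univ v)
      push_cast at hN
      omega
    ext v w b
    rw [Matrix.zero_apply, Finsupp.zero_apply]
    have h2 := hD v
    rw [h1 v, mul_zero] at h2
    have h3 : l1 (H v w) ≤ ∑ w, l1 (H v w) :=
      Finset.single_le_sum (f := fun w => l1 (H v w)) (fun _ _ => l1_nonneg _) (Finset.mem_univ w)
    have h4 := abs_le_l1 (H v w) b
    have h5 := abs_nonneg (H v w b)
    exact abs_eq_zero.mp (by linarith)
  | succ N ih =>
    intro H hH hD hN
    have key : ∀ (s : Fin n) (t : Option (Fin n)) (a : Fin k → ℤ) (ε : ℤˣ),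
        1 ≤ EM s t a ε s s 0 → Herm (H - EM s t a ε) → Dom (H - EM s t a ε) →
        ∃ (m : ℕ) (s : Fin m → Fin n) (t : Fin m → Option (Fin n))
          (a : Fin m → Fin k → ℤ) (ε : Fin m → ℤˣ), H = ∑ f, EM (s f) (t f) (a f) (ε f) := by
      intro s t a ε h1 h2 h3
      have h4 : ∑ v, (H - EM s t a ε) v v 0 ≤ N := by
        have h5 : 1 ≤ ∑ v, EM s t a ε v v 0 :=
          h1.trans (Finset.single_le_sum (f := fun v => EM s t a ε v v 0)
            (fun v _ => diag_nonneg (dom_EM s t a ε) v) (Finset.mem_univ s))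
        simp only [Matrix.sub_apply, Finsupp.sub_apply, Finset.sum_sub_distrib]
        push_cast at hN
        linarith
      obtain ⟨m, s', t', a', ε', h5⟩ := ih _ h2 h3 h4
      refine ⟨m + 1, Fin.cons s s', Fin.cons t t', Fin.cons a a', Fin.cons ε ε', ?_⟩
      rw [Fin.sum_univ_succ]
      simp only [Fin.cons_zero, Fin.cons_succ]
      rw [← h5]
      abel
    by_cases hoff : ∃ v w a, H v w a ≠ 0 ∧ ¬ (v = w ∧ a = 0)
    · obtain ⟨v, w, a, hc, hvw⟩ := hoff
      obtain ⟨ε, h1, h2⟩ := step_off hH hD hc hvw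
      refine key v (some w) (-a) ε ?_ h1 h2
      have hr : ∀ x, ((some w : Option (Fin n)) = some x) = (w = x) := fun x =>
        propext (Option.some_inj)
      rw [EM_apply]
      simp only [hr, neg_neg, true_and, and_true]
      have h3 : ¬ (w = v ∧ (0 : Fin k → ℤ) = a) := fun h => hvw ⟨h.1.symm, h.2.symm⟩
      have h4 : ¬ (w = v ∧ (0 : Fin k → ℤ) = -a) := fun h =>
        hvw ⟨h.1.symm, neg_eq_zero.mp h.2.symm⟩
      rw [if_neg h3, if_neg h4]
      split_ifs <;> simp
    · push Not at hoff
      by_cases hz : ∃ v, H v v 0 ≠ 0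
      · obtain ⟨v, hv⟩ := hz
        obtain ⟨h1, h2⟩ := step_diag hH hD hoff hv
        refine key v none 0 1 ?_ h1 h2
        rw [EM_apply]
        simp
      · push Not at hz
        refine ⟨0, Fin.elim0, Fin.elim0, Fin.elim0, Fin.elim0, ?_⟩
        rw [Finset.univ_eq_empty, Finset.sum_empty]
        ext v w b
        rw [Matrix.zero_apply, Finsupp.zero_apply]
        by_contra h1
        obtain ⟨rfl, rfl⟩ := hoff v w b h1
        exact h1 (hz v)

/-- evaluation -/
def hval (H : Matrix (Fin n) (Fin n) (LP k)) (θ : Fin k → ℝ) : Matrix (Fin n) (Fin n) ℂ :=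
  Matrix.of fun v w => lval (H v w) θ

theorem hval_sum {m : ℕ} (s : Fin m → Fin n) (t : Fin m → Option (Fin n))
    (a : Fin m → Fin k → ℤ) (ε : Fin m → ℤˣ) (θ : Fin k → ℝ) :
    hval (∑ f, EM (s f) (t f) (a f) (ε f)) θ = (⟨m, s, t, a, ε⟩ : PG n k).lap θ := by
  ext v w
  unfold hval PG.lap
  rw [Matrix.of_apply, Matrix.of_apply, Matrix.sum_apply, lval_sum]
  refine Finset.sum_congr rfl fun f _ => ?_
  rw [lval_EM]
  rfl

theorem exists_PG {H : Matrix (Fin n) (Fin n) (LP k)} (hH : Herm H) (hD : Dom H) :
    ∃ G : PG n k, ∀ θ, G.lap θ = hval H θ := by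
  obtain ⟨m, s, t, a, ε, h⟩ := decomp (∑ v, H v v 0).toNat H hH hD (Int.self_le_toNat _)
  refine ⟨⟨m, s, t, a, ε⟩, fun θ => ?_⟩
  rw [h, hval_sum]

theorem PG.exists_dom (G : PG n k) : ∃ H : Matrix (Fin n) (Fin n) (LP k), Herm H ∧ Dom H ∧
    ∀ θ, hval H θ = G.lap θ := by
  refine ⟨∑ f, EM (G.source f) (G.target f) (G.shift f) (G.sign f), ?_, ?_, fun θ => ?_⟩
  · intro v w a
    rw [Matrix.sum_apply, Matrix.sum_apply, Finsupp.finsetSum_apply, Finsupp.finsetSum_apply]
    exact Finset.sum_congr rfl fun f _ => herm_EM _ _ _ _ v w a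
  · intro v
    have h1 : ∀ w, l1 ((∑ f, EM (G.source f) (G.target f) (G.shift f) (G.sign f)) v w) ≤
        ∑ f, l1 (EM (G.source f) (G.target f) (G.shift f) (G.sign f) v w) := by
      intro w
      rw [Matrix.sum_apply]
      exact l1_sum_le _ _
    refine (Finset.sum_le_sum fun w _ => h1 w).trans ?_
    rw [Finset.sum_comm, Matrix.sum_apply, Finsupp.finsetSum_apply, Finset.mul_sum]
    exact Finset.sum_le_sum fun f _ => dom_EM _ _ _ _ v
  · exact hval_sum _ _ _ _ θ

end

end Pool.Agent.W5h6.LG
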