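import Pool.Agent.W5h6.LG.Conv

/-! # Diagonally dominant Hermitian matrices of Laurent polynomials -/

set_option autoImplicit false

namespace Pool.Agent.W5h6.LG

open Matrix
open scoped ComplexConjugate

noncomputable section

/-- Laurent polynomials -/
abbrev LP (k : ℕ) : Type := (Fin k → ℤ) →₀ ℤ

def lval {k : ℕ} (P : LP k) (θ : Fin k → ℝ) : ℂ := P.sum fun a c => (c : ℂ) * chr a θ

def l1 {k : ℕ} (P : LP k) : ℤ := P.sum fun _ c => |c|

variable {n k : ℕ}

theorem lval_zero (θ : Fin k → ℝ) : lval (0 : LP k) θ = 0 := by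
  unfold lval
  exact Finsupp.sum_zero_index

theorem lval_add (P Q : LP k) (θ : Fin k → ℝ) : lval (P + Q) θ = lval P θ + lval Q θ := by
  unfold lval
  refine Finsupp.sum_add_index' (fun a => by simp) (fun a b c => ?_)
  push_cast
  ring

theorem lval_neg (P : LP k) (θ : Fin k → ℝ) : lval (-P) θ = -lval P θ := by
  have h1 := lval_add P (-P) θ
  rw [add_neg_cancel, lval_zero] at h1
  linear_combination -h1

theorem lval_sub (P Q : LP k) (θ : Fin k → ℝ) : lval (P - Q) θ = lval P θ - lval Q θ := by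
  rw [sub_eq_add_neg, lval_add, lval_neg, sub_eq_add_neg]

theorem lval_single (a : Fin k → ℤ) (c : ℤ) (θ : Fin k → ℝ) :
    lval (Finsupp.single a c) θ = (c : ℂ) * chr a θ := by
  unfold lval
  rw [Finsupp.sum_single_index (by simp)]

theorem lval_sum {ι : Type*} (S : Finset ι) (P : ι → LP k) (θ : Fin k → ℝ) :
    lval (∑ i ∈ S, P i) θ = ∑ i ∈ S, lval (P i) θ := by
  classical
  induction S using Finset.induction_on with
  | empty => simp [lval_zero]
  | insert a S ha ih => rw [Finset.sum_insert ha, Finset.sum_insert ha, lval_add, ih]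

theorem l1_eq (P : LP k) (S : Finset (Fin k → ℤ)) (hS : P.support ⊆ S) :
    l1 P = ∑ a ∈ S, |P a| := by
  unfold l1
  exact Finsupp.sum_of_support_subset P hS _ (fun _ _ => abs_zero)

theorem l1_nonneg (P : LP k) : 0 ≤ l1 P := Finset.sum_nonneg fun _ _ => abs_nonneg _

theorem l1_zero : l1 (0 : LP k) = 0 := by
  unfold l1
  exact Finsupp.sum_zero_index

theorem l1_single (a : Fin k → ℤ) (c : ℤ) : l1 (Finsupp.single a c) = |c| := by
  unfold l1
  rw [Finsupp.sum_single_index (by simp)]

theorem l1_neg (P : LP k) : l1 (-P) = l1 P := by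
  rw [l1_eq (-P) P.support (by rw [Finsupp.support_neg]), l1_eq P P.support le_rfl]
  refine Finset.sum_congr rfl fun a _ => ?_
  rw [Finsupp.neg_apply, abs_neg]

theorem l1_add_le (P Q : LP k) : l1 (P + Q) ≤ l1 P + l1 Q := by
  classical
  rw [l1_eq (P + Q) (P.support ∪ Q.support) Finsupp.support_add,
    l1_eq P (P.support ∪ Q.support) Finset.subset_union_left,
    l1_eq Q (P.support ∪ Q.support) Finset.subset_union_right, ← Finset.sum_add_distrib]
  refine Finset.sum_le_sum fun a _ => ?_
  rw [Finsupp.add_apply]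
  exact abs_add_le _ _

theorem l1_sum_le {ι : Type*} (S : Finset ι) (P : ι → LP k) :
    l1 (∑ i ∈ S, P i) ≤ ∑ i ∈ S, l1 (P i) := by
  classical
  induction S using Finset.induction_on with
  | empty => simp [l1_zero]
  | insert a S ha ih =>
    rw [Finset.sum_insert ha, Finset.sum_insert ha]
    exact (l1_add_le _ _).trans (by linarith)

theorem abs_le_l1 (P : LP k) (a : Fin k → ℤ) : |P a| ≤ l1 P := by
  classical
  rw [l1_eq P (insert a P.support) (Finset.subset_insert _ _)]
  exact Finset.single_le_sum (f := fun a => |P a|) (fun _ _ => abs_nonneg _) (Finset.mem_insert_self _ _)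

theorem abs_two_le_l1 (P : LP k) {a b : Fin k → ℤ} (hab : a ≠ b) : |P a| + |P b| ≤ l1 P := by
  classical
  rw [l1_eq P (insert a (insert b P.support))
    ((Finset.subset_insert _ _).trans (Finset.subset_insert _ _))]
  rw [← Finset.sum_pair (f := fun a => |P a|) hab]
  refine Finset.sum_le_sum_of_subset_of_nonneg ?_ (fun _ _ _ => abs_nonneg _)
  intro x hx
  rw [Finset.mem_insert, Finset.mem_singleton] at hx
  rcases hx with rfl | rfl
  · exact Finset.mem_insert_self _ _
  · exact Finset.mem_insert_of_mem (Finset.mem_insert_self _ _)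

theorem abs_three_le_l1 (P : LP k) {a b c : Fin k → ℤ} (hab : a ≠ b) (hac : a ≠ c) (hbc : b ≠ c) :
    |P a| + |P b| + |P c| ≤ l1 P := by
  classical
  rw [l1_eq P (insert a (insert b (insert c P.support)))
    (((Finset.subset_insert _ _).trans (Finset.subset_insert _ _)).trans (Finset.subset_insert _ _))]
  have h1 : ∑ x ∈ ({a, b, c} : Finset (Fin k → ℤ)), |P x| = |P a| + |P b| + |P c| := by
    rw [Finset.sum_insert (by simp [hab, hac]), Finset.sum_pair hbc]
    ring
  rw [← h1]
  refine Finset.sum_le_sum_of_subset_of_nonneg ?_ (fun _ _ _ => abs_nonneg _)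
  intro x hx
  simp only [Finset.mem_insert, Finset.mem_singleton] at hx ⊢
  tauto

/-- conformal differences -/
theorem l1_sub_of (P Q : LP k) (h : ∀ a, |P a| = |Q a| + |P a - Q a|) : l1 (P - Q) = l1 P - l1 Q := by
  classical
  have hs : (P - Q).support ⊆ P.support := by
    intro a ha
    rw [Finsupp.mem_support_iff] at ha ⊢
    intro h0
    have h1 := h a
    rw [h0, abs_zero] at h1
    have h2 := abs_nonneg (Q a)
    have h3 := abs_nonneg (0 - Q a)
    have h4 : |Q a| = 0 := by linarith
    rw [abs_eq_zero] at h4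
    apply ha
    rw [Finsupp.sub_apply, h0, h4, sub_zero]
  have hs2 : Q.support ⊆ P.support := by
    intro a ha
    rw [Finsupp.mem_support_iff] at ha ⊢
    intro h0
    have h1 := h a
    rw [h0, abs_zero] at h1
    have h2 := abs_nonneg (Q a)
    have h3 := abs_nonneg (0 - Q a)
    have h4 : |Q a| = 0 := by linarith
    rw [abs_eq_zero] at h4
    exact ha h4
  rw [l1_eq (P - Q) P.support hs, l1_eq P P.support le_rfl, l1_eq Q P.support hs2,
    ← Finset.sum_sub_distrib]
  refine Finset.sum_congr rfl fun a _ => ?_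
  rw [Finsupp.sub_apply]
  linarith [h a]

/-- Hermitian -/
def Herm (H : Matrix (Fin n) (Fin n) (LP k)) : Prop := ∀ v w a, H w v (-a) = H v w a

/-- diagonally dominant -/
def Dom (H : Matrix (Fin n) (Fin n) (LP k)) : Prop := ∀ v, ∑ w, l1 (H v w) ≤ 2 * H v v 0

/-- the matrix of an edge -/
def EM (s : Fin n) (t : Option (Fin n)) (a : Fin k → ℤ) (ε : ℤˣ) : Matrix (Fin n) (Fin n) (LP k) :=
  Matrix.of fun v w =>
    (if s = v ∧ s = w then Finsupp.single 0 1 else 0) +
    (if t = some v ∧ t = some w then Finsupp.single 0 1 else 0) -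
    (if s = v ∧ t = some w then Finsupp.single (-a) (ε : ℤ) else 0) -
    (if t = some v ∧ s = w then Finsupp.single a (ε : ℤ) else 0)

def incv (s : Fin n) (t : Option (Fin n)) (a : Fin k → ℤ) (ε : ℤˣ) (θ : Fin k → ℝ) (v : Fin n) : ℂ :=
  (if s = v then 1 else 0) - if t = some v then ((ε : ℤˣ) : ℤ) * chr a θ else 0

theorem lval_EM (s : Fin n) (t : Option (Fin n)) (a : Fin k → ℤ) (ε : ℤˣ) (θ : Fin k → ℝ)
    (v w : Fin n) : lval (EM s t a ε v w) θ = incv s t a ε θ v * conj (incv s t a ε θ w) := by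
  unfold EM incv
  rw [Matrix.of_apply, lval_sub, lval_sub, lval_add]
  have hε : (((ε : ℤˣ) : ℤ) : ℂ) * (((ε : ℤˣ) : ℤ) : ℂ) = 1 := by
    rcases Int.units_eq_one_or ε with h | h <;> rw [h] <;> simp
  have hc : chr a θ * conj (chr a θ) = 1 := by
    rw [Complex.mul_conj, Complex.normSq_eq_norm_sq, norm_chr]
    norm_num
  have hεc : conj (((ε : ℤˣ) : ℤ) : ℂ) = (((ε : ℤˣ) : ℤ) : ℂ) := by
    rw [← Complex.ofReal_intCast, Complex.conj_ofReal]
  have e1 : lval (if s = v ∧ s = w then Finsupp.single (0 : Fin k → ℤ) (1 : ℤ) else 0) θ =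
      if s = v ∧ s = w then 1 else 0 := by
    split_ifs
    · rw [lval_single, chr_zero]; simp
    · exact lval_zero θ
  have e2 : lval (if t = some v ∧ t = some w then Finsupp.single (0 : Fin k → ℤ) (1 : ℤ) else 0) θ =
      if t = some v ∧ t = some w then 1 else 0 := by
    split_ifs
    · rw [lval_single, chr_zero]; simp
    · exact lval_zero θ
  have e3 : lval (if s = v ∧ t = some w then Finsupp.single (-a) (ε : ℤ) else 0) θ =
      if s = v ∧ t = some w then (((ε : ℤˣ) : ℤ) : ℂ) * conj (chr a θ) else 0 := by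
    split_ifs
    · rw [lval_single, chr_neg]
    · exact lval_zero θ
  have e4 : lval (if t = some v ∧ s = w then Finsupp.single a (ε : ℤ) else 0) θ =
      if t = some v ∧ s = w then (((ε : ℤˣ) : ℤ) : ℂ) * chr a θ else 0 := by
    split_ifs
    · rw [lval_single]
    · exact lval_zero θ
  rw [e1, e2, e3, e4, map_sub]
  have e5 : conj (if s = w then (1 : ℂ) else 0) = if s = w then 1 else 0 := by split_ifs <;> simp
  have e6 : conj (if t = some w then (((ε : ℤˣ) : ℤ) : ℂ) * chr a θ else 0) =
      if t = some w then (((ε : ℤˣ) : ℤ) : ℂ) * conj (chr a θ) else 0 := by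
    split_ifs
    · rw [map_mul, hεc]
    · exact map_zero _
  rw [e5, e6]
  simp only [ite_and]
  split_ifs <;> first
    | ring1
    | linear_combination (-(chr a θ * conj (chr a θ))) * hε - hc

end

end Pool.Agent.W5h6.LG
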