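import Pool.Agent.W5h6.LG.Lin

/-! # Quotients of periodic signed graphs and their Laplacians -/

set_option autoImplicit false

namespace Pool.Agent.W5h6.LG

open Matrix MeasureTheory Filter Pool.Agent.H261R2.CM Pool.Agent.W5h6.HS
open scoped ComplexConjugate

noncomputable section

/-- Quotient of a periodic signed graph with `n` orbits of vertices and `m` orbits of edges; the
target `none` is the ground. -/
structure Gr (n m k : ℕ) where
  s : Fin m → Fin n
  t : Fin m → Option (Fin n)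
  σ : Fin m → ℤˣ
  τ : Fin m → ℤˣ
  p : Fin m → (Fin k →₀ ℕ)
  q : Fin m → (Fin k →₀ ℕ)

variable {n m k : ℕ}

/-- incidence matrix -/
def Gr.mat (G : Gr n m k) : Matrix (Fin n) (Fin m) (MvPolynomial (Fin k) ℤ) := fun u f =>
  (if G.s f = u then MvPolynomial.monomial (G.p f) ((G.σ f : ℤˣ) : ℤ) else 0) +
    if G.t f = some u then MvPolynomial.monomial (G.q f) ((G.τ f : ℤˣ) : ℤ) else 0

/-- the class: half-edges allowed if `h`, signs allowed if `g` -/
def Gr.Adm (h g : Prop) (G : Gr n m k) : Prop :=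
  (∀ f, G.t f = none → h) ∧ ∀ f, ¬ (G.σ f = 1 ∧ G.τ f = -1) → g

def Gr.ev (G : Gr n m k) (θ : Fin k → ℝ) : Matrix (Fin n) (Fin m) ℂ := G.mat.map (tvHom θ)

def Gr.ldet (G : Gr n m k) (θ : Fin k → ℝ) : ℂ := (G.ev θ * (G.ev θ)ᴴ).det

def Gr.meas (G : Gr n m k) : ℝ :=
  Real.exp (∫ θ in Set.Icc (0 : Fin k → ℝ) 1, Real.log ‖G.ldet θ‖)

/-- maximal minors -/
def Gr.minor (G : Gr n m k) (J : {J : Fin n → Fin m // StrictMono J}) : MvPolynomial (Fin k) ℤ :=
  (G.mat.submatrix id J.1).det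

def Gr.Good (G : Gr n m k) : Prop := ∃ J, G.minor J ≠ 0

theorem tv_det {a : ℕ} (M : Matrix (Fin a) (Fin a) (MvPolynomial (Fin k) ℤ)) (θ : Fin k → ℝ) :
    tv M.det θ = (M.map (tvHom θ)).det := by
  rw [← tvHom_apply, RingHom.map_det]
  rfl

theorem Gr.norm_ldet (G : Gr n m k) (θ : Fin k → ℝ) :
    ‖G.ldet θ‖ = ∑ J, ‖tv (G.minor J) θ‖ ^ 2 := by
  unfold Gr.ldet
  rw [gram_det, Complex.norm_real, Real.norm_of_nonneg (Finset.sum_nonneg fun _ _ => by positivity)]
  refine Finset.sum_congr rfl fun J _ => ?_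
  unfold Gr.minor
  rw [tv_det]
  rfl

theorem Gr.norm_ldet' (G : Gr n m k) (θ : Fin k → ℝ) :
    ‖G.ldet θ‖ = ‖tv (Fk (Pool.Agent.W5h6.HS.sq {J : Fin n → Fin m // StrictMono J}) G.minor) θ‖ := by
  rw [G.norm_ldet, norm_tv_sq]

theorem Gr.meas_eq (G : Gr n m k) :
    G.meas = mM (Fk (Pool.Agent.W5h6.HS.sq {J : Fin n → Fin m // StrictMono J}) G.minor) := by
  unfold Gr.meas mM
  simp only [G.norm_ldet']

theorem exists_tv_ne {P : MvPolynomial (Fin k) ℤ} (hP : P ≠ 0) : ∃ θ, tv P θ ≠ 0 := by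
  have h1 := F_zero_null hP
  by_contra hcon
  push Not at hcon
  have h3 := h1.and (Eventually.of_forall hcon)
  have h4 : ∀ᵐ t ∂(volume.restrict (Set.Icc (0 : Fin k → ℝ) 1)), False := h3.mono fun t ht => ht.1 ht.2
  rw [Filter.eventually_false_iff_eq_bot, MeasureTheory.ae_eq_bot, Measure.restrict_eq_zero] at h4
  have h5 := Real.volume_Icc_pi (a := (0 : Fin k → ℝ)) (b := 1)
  rw [h4] at h5
  simp at h5

theorem Gr.good_iff (G : Gr n m k) : G.Good ↔ ∃ θ, G.ldet θ ≠ 0 := by
  constructor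
  · rintro ⟨J, hJ⟩
    obtain ⟨θ, hθ⟩ := exists_tv_ne hJ
    refine ⟨θ, ?_⟩
    rw [← norm_ne_zero_iff, G.norm_ldet]
    refine ne_of_gt (Finset.sum_pos' (fun _ _ => by positivity) ⟨J, Finset.mem_univ J, ?_⟩)
    have := norm_pos_iff.mpr hθ
    positivity
  · rintro ⟨θ, hθ⟩
    by_contra hcon
    unfold Gr.Good at hcon
    push Not at hcon
    apply hθ
    rw [← norm_eq_zero, G.norm_ldet]
    refine Finset.sum_eq_zero fun J _ => ?_
    rw [hcon J, tv_zero]
    simp

theorem Gr.congr {n' m' : ℕ} {G : Gr n m k} {G' : Gr n' m' k} (h : ∀ θ, ‖G.ldet θ‖ = ‖G'.ldet θ‖) :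
    G.meas = G'.meas ∧ (G.Good ↔ G'.Good) := by
  refine ⟨?_, ?_⟩
  · unfold Gr.meas
    simp only [h]
  · rw [G.good_iff, G'.good_iff]
    constructor
    · rintro ⟨θ, hθ⟩
      exact ⟨θ, by rw [← norm_ne_zero_iff, ← h]; exact norm_ne_zero_iff.mpr hθ⟩
    · rintro ⟨θ, hθ⟩
      exact ⟨θ, by rw [← norm_ne_zero_iff, h]; exact norm_ne_zero_iff.mpr hθ⟩

theorem Gr.F_ne {G : Gr n m k} (hG : G.Good) :
    Fk (Pool.Agent.W5h6.HS.sq {J : Fin n → Fin m // StrictMono J}) G.minor ≠ 0 :=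
  Fk_ne_zero _ biHom_sq ell_sq _ hG

theorem Gr.one_le_meas {G : Gr n m k} (hG : G.Good) : 1 ≤ G.meas := by
  rw [G.meas_eq]
  exact one_le_mM _ (G.F_ne hG)

theorem Gr.meas_mul {n' m' : ℕ} {G : Gr n m k} {G' : Gr n' m' k} {d : MvPolynomial (Fin k) ℤ}
    (h : ∀ θ, ‖G.ldet θ‖ = ‖tv d θ‖ ^ 2 * ‖G'.ldet θ‖) (hG : G.Good) :
    d ≠ 0 ∧ G'.Good ∧ G.meas = mM d ^ 2 * G'.meas := by
  obtain ⟨θ, hθ⟩ := G.good_iff.mp hG
  have h1 := h θ
  have h2 : ‖G.ldet θ‖ ≠ 0 := norm_ne_zero_iff.mpr hθ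
  rw [h1] at h2
  have hd : d ≠ 0 := by
    rintro rfl
    rw [tv_zero] at h2
    simp at h2
  have hG' : G'.Good := by
    rw [G'.good_iff]
    refine ⟨θ, ?_⟩
    intro h0
    rw [h0] at h2
    simp at h2
  refine ⟨hd, hG', ?_⟩
  rw [G.meas_eq, G'.meas_eq, pow_two, ← mM_mul d d hd hd, ← mM_mul (d * d) _ (mul_ne_zero hd hd)
    (G'.F_ne hG')]
  refine mM_congr fun t => ?_
  rw [← G.norm_ldet', h t, G'.norm_ldet']
  simp only [← tvHom_apply, map_mul, norm_mul]
  ring

/-! ### removal of columns and vertices -/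

/-- deletion of a column which is zero -/
theorem Gr.del (h g : Prop) (G : Gr n (m + 1) k) (hG : G.Adm h g) (c : Fin (m + 1))
    (hc : ∀ u, G.mat u c = 0) : ∃ G' : Gr n m k, G'.Adm h g ∧ ∀ θ, G'.ldet θ = G.ldet θ := by
  refine ⟨⟨fun f => G.s (c.succAbove f), fun f => G.t (c.succAbove f), fun f => G.σ (c.succAbove f),
    fun f => G.τ (c.succAbove f), fun f => G.p (c.succAbove f), fun f => G.q (c.succAbove f)⟩,
    ⟨fun f hf => hG.1 _ hf, fun f hf => hG.2 _ hf⟩, fun θ => ?_⟩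
  unfold Gr.ldet
  congr 1
  ext i j
  rw [Matrix.mul_apply, Matrix.mul_apply, Fin.sum_univ_succAbove _ c]
  have h1 : G.ev θ i c = 0 := by
    change tvHom θ (G.mat i c) = 0
    rw [hc i, map_zero]
  rw [h1, zero_mul, zero_add]
  rfl

/-- removal of a vertex with a single incident column -/
theorem Gr.remove (h g : Prop) (G : Gr (n + 1) (m + 1) k) (u : Fin (n + 1)) (c : Fin (m + 1))
    (hs : G.s c = u) (ht : G.t c = none ∨ G.t c = some u)
    (hoff : ∀ f, f ≠ c → G.s f ≠ u ∧ G.t f ≠ some u)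
    (hadm : (∀ f, f ≠ c → G.t f = none → h) ∧ ∀ f, f ≠ c → ¬ (G.σ f = 1 ∧ G.τ f = -1) → g) :
    ∃ G' : Gr n m k, G'.Adm h g ∧ ∀ θ, ‖G.ldet θ‖ = ‖tv (G.mat u c) θ‖ ^ 2 * ‖G'.ldet θ‖ := by
  have hsx : ∀ f : Fin m, ∃ w, u.succAbove w = G.s (c.succAbove f) := fun f =>
    Fin.exists_succAbove_eq (hoff _ (Fin.succAbove_ne c f)).1
  choose s' hs' using hsx
  have htx : ∀ f : Fin m, ∃ w : Option (Fin n), w.map u.succAbove = G.t (c.succAbove f) := by
    intro f
    rcases hcase : G.t (c.succAbove f) with _ | w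
    · exact ⟨none, rfl⟩
    · have h1 : w ≠ u := by
        rintro rfl
        exact (hoff _ (Fin.succAbove_ne c f)).2 hcase
      obtain ⟨z, hz⟩ := Fin.exists_succAbove_eq h1
      exact ⟨some z, by simp [hz]⟩
  choose t' ht' using htx
  refine ⟨⟨s', t', fun f => G.σ (c.succAbove f), fun f => G.τ (c.succAbove f),
    fun f => G.p (c.succAbove f), fun f => G.q (c.succAbove f)⟩, ⟨fun f hf => ?_, fun f hf => ?_⟩,
    fun θ => ?_⟩
  · refine hadm.1 (c.succAbove f) (Fin.succAbove_ne c f) ?_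
    rw [← ht' f]
    simp only at hf
    rw [hf]
    rfl
  · exact hadm.2 (c.succAbove f) (Fin.succAbove_ne c f) hf
  · set G' : Gr n m k := ⟨s', t', fun f => G.σ (c.succAbove f), fun f => G.τ (c.succAbove f),
      fun f => G.p (c.succAbove f), fun f => G.q (c.succAbove f)⟩ with hG'
    have hmat : ∀ w f, G'.mat w f = G.mat (u.succAbove w) (c.succAbove f) := by
      intro w f
      unfold Gr.mat
      have e1 : (G'.s f = w) = (G.s (c.succAbove f) = u.succAbove w) := by
        rw [← hs' f, Fin.succAbove_right_inj]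
      have e2 : (G'.t f = some w) = (G.t (c.succAbove f) = some (u.succAbove w)) := by
        rw [← ht' f, ← Option.map_some]
        apply propext
        constructor
        · intro h1
          rw [← h1]
        · intro h1
          exact Option.map_injective (Fin.succAbove_right_injective) h1
      simp only [e1, e2]
      rfl
    have hrow : ∀ f, f ≠ c → G.mat u f = 0 := by
      intro f hf
      unfold Gr.mat
      rw [if_neg (hoff f hf).1, if_neg (hoff f hf).2, add_zero]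
    have hcol : ∀ w, w ≠ u → G.mat w c = 0 := by
      intro w hw
      unfold Gr.mat
      rw [if_neg (by rw [hs]; exact hw.symm)]
      rcases ht with ht | ht
      · rw [ht, if_neg (by simp), add_zero]
      · rw [ht, if_neg (by simpa using hw.symm), add_zero]
    have hev : ∀ w f, G.ev θ w f = tvHom θ (G.mat w f) := fun _ _ => rfl
    have hev' : ∀ w f, G'.ev θ w f = tvHom θ (G'.mat w f) := fun _ _ => rfl
    set L := G.ev θ * (G.ev θ)ᴴ with hL
    have hLu : ∀ w, L u w = if w = u then tv (G.mat u c) θ * conj (tv (G.mat u c) θ) else 0 := by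
      intro w
      rw [hL, Matrix.mul_apply, Finset.sum_eq_single c]
      · rw [Matrix.conjTranspose_apply, hev, hev]
        by_cases hw : w = u
        · subst hw
          rw [if_pos rfl]
          rfl
        · rw [if_neg hw, hcol w hw, map_zero]
          simp
      · intro f _ hf
        rw [hev, hrow f hf, map_zero, zero_mul]
      · intro h1
        exact absurd (Finset.mem_univ c) h1
    have hsub : L.submatrix u.succAbove u.succAbove = G'.ev θ * (G'.ev θ)ᴴ := by
      ext i j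
      rw [Matrix.submatrix_apply, hL, Matrix.mul_apply, Matrix.mul_apply, Fin.sum_univ_succAbove _ c,
        hev (u.succAbove i) c, hcol _ (Fin.succAbove_ne u i), map_zero, zero_mul, zero_add]
      refine Finset.sum_congr rfl fun f _ => ?_
      rw [Matrix.conjTranspose_apply, Matrix.conjTranspose_apply, hev, hev, hev', hev', hmat, hmat]
    have hdet : G.ldet θ = tv (G.mat u c) θ * conj (tv (G.mat u c) θ) * G'.ldet θ := by
      change L.det = _
      rw [Matrix.det_succ_row L u, Finset.sum_eq_single u]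
      · rw [hLu u, if_pos rfl, hsub]
        have h2 : (-1 : ℂ) ^ ((u : ℕ) + (u : ℕ)) = 1 := by
          rw [← two_mul, pow_mul]
          simp
        rw [h2, one_mul]
        rfl
      · intro j _ hj
        rw [hLu j, if_neg hj]
        simp
      · intro h1
        exact absurd (Finset.mem_univ u) h1
    rw [hdet, norm_mul, norm_mul, RCLike.norm_conj]
    ring

end

end Pool.Agent.W5h6.LG
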