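import Pool.Agent.W5h6.LG.Reduce

/-! # Limits of graphs of bounded size -/

set_option autoImplicit false

namespace Pool.Agent.W5h6.LG

open Matrix MeasureTheory Filter Topology Pool.Agent.H261R2.CM Pool.Agent.W5h6.HS Polynomial
open scoped ComplexConjugate

noncomputable section

variable {n m k : ℕ}

/-- combinatorial types -/
abbrev Ty (n m : ℕ) : Type := (Fin m → Fin n) × (Fin m → Option (Fin n)) × (Fin m → ℤˣ) × (Fin m → ℤˣ)

def AdmT (h g : Prop) (c : Ty n m) : Prop :=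
  (∀ f, c.2.1 f = none → h) ∧ ∀ f, ¬ (c.2.2.1 f = 1 ∧ c.2.2.2 f = -1) → g

def mat1 (c : Ty n m) (p q : Fin m → ℕ) : Matrix (Fin n) (Fin m) ℤ[X] := fun u f =>
  (if c.1 f = u then C ((c.2.2.1 f : ℤˣ) : ℤ) * X ^ (p f) else 0) +
    if c.2.1 f = some u then C ((c.2.2.2 f : ℤˣ) : ℤ) * X ^ (q f) else 0

def minor1 (c : Ty n m) (p q : Fin m → ℕ) (J : {J : Fin n → Fin m // StrictMono J}) : ℤ[X] :=
  ((mat1 c p q).submatrix id J.1).det

def Gr.ty (G : Gr n m k) : Ty n m := (G.s, G.t, G.σ, G.τ)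

theorem spec_mat (G : Gr n m k) (e : Fin k → ℕ) (u : Fin n) (f : Fin m) :
    spec e (G.mat u f) = mat1 G.ty (fun f => ∑ i, G.p f i * e i) (fun f => ∑ i, G.q f i * e i) u f := by
  unfold Gr.mat mat1
  rw [map_add]
  congr 1
  · change _ = if G.s f = u then _ else _
    split_ifs
    · exact TG.spec_monomial _ _ _
    · exact map_zero _
  · change _ = if G.t f = some u then _ else _
    split_ifs
    · exact TG.spec_monomial _ _ _
    · exact map_zero _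

theorem spec_minor (G : Gr n m k) (e : Fin k → ℕ) (J : {J : Fin n → Fin m // StrictMono J}) :
    spec e (G.minor J) =
      minor1 G.ty (fun f => ∑ i, G.p f i * e i) (fun f => ∑ i, G.q f i * e i) J := by
  unfold Gr.minor minor1
  have h1 : spec e ((G.mat.submatrix id J.1).det) =
      ((spec e).toRingHom.mapMatrix (G.mat.submatrix id J.1)).det :=
    RingHom.map_det (spec e).toRingHom _
  rw [h1]
  congr 1
  ext1 i j
  exact spec_mat G e i (J.1 j)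

theorem approx (h g : Prop) (G : Gr n m k) (hA : G.Adm h g) (hG : G.Good) (ε : ℝ) (hε : 0 < ε) :
    ∃ (c : Ty n m) (p q : Fin m → ℕ), AdmT h g c ∧ (∃ J, minor1 c p q J ≠ 0) ∧
      |m1 (F1 (Pool.Agent.W5h6.HS.sq {J : Fin n → Fin m // StrictMono J}) (minor1 c p q)) - G.meas| < ε := by
  set e : ℕ → Fin k → ℕ := fun (n : ℕ) (i : Fin k) => n ^ (i : ℕ) with he
  have he1 : AsympIndep atTop e := asympIndep_pow k
  have h1 := m1_lim atTop e he1 _ (Gr.F_ne hG)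
  rw [← G.meas_eq] at h1
  obtain ⟨J, hJ⟩ := id hG
  obtain ⟨j, h2, h3⟩ := ((Metric.tendsto_nhds.mp h1 ε hε).and (spec_ne_zero atTop e he1 _ hJ)).exists
  refine ⟨G.ty, fun f => ∑ i, G.p f i * e j i, fun f => ∑ i, G.q f i * e j i, hA, ⟨J, ?_⟩, ?_⟩
  · rw [← spec_minor]
    exact h3
  · rw [Real.dist_eq, m1_spec_Fk _ biHom_sq ell_sq G.minor (e j) ⟨J, h3⟩] at h2
    simp only [spec_minor] at h2
    exact h2

theorem pigeon {α : Type} [Finite α] (f : ℕ → α) :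
    ∃ a, ∀ᶠ j in (hyperfilter ℕ : Filter ℕ), f j = a := by
  obtain ⟨a, ha⟩ := Ultrafilter.eq_pure_of_finite ((hyperfilter ℕ).map f)
  refine ⟨a, ?_⟩
  have h1 : ({a} : Set α) ∈ (hyperfilter ℕ).map f := by
    rw [ha]
    exact Ultrafilter.mem_pure.mpr (Set.mem_singleton a)
  exact Ultrafilter.mem_map.mp h1

theorem limit (h g : Prop) (n m : ℕ) (c : ℕ → Ty n m) (p q : ℕ → Fin m → ℕ) (μ : ℝ)
    (hc : ∀ᶠ j in (hyperfilter ℕ : Filter ℕ), AdmT h g (c j) ∧ ∃ J, minor1 (c j) (p j) (q j) J ≠ 0)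
    (hlim : Tendsto (fun j => m1 (F1 (Pool.Agent.W5h6.HS.sq {J : Fin n → Fin m // StrictMono J})
      (minor1 (c j) (p j) (q j)))) (hyperfilter ℕ : Filter ℕ) (𝓝 μ)) :
    ∃ (k : ℕ) (G : Gr n m k), 1 ≤ k ∧ G.Adm h g ∧ G.Good ∧ G.meas = μ := by
  classical
  obtain ⟨c0, hc0⟩ := pigeon c
  obtain ⟨k, e, a, hk, hAI, hcoord⟩ := common_exponents (σ := Fin m ⊕ Fin m)
    (fun x j => Sum.elim (p j) (q j) x)
  -- shift
  obtain ⟨M, hM⟩ : ∃ M : ℕ, ∀ x i, 0 ≤ (M : ℤ) + a x i := by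
    refine ⟨∑ x, ∑ i, (a x i).natAbs, fun x i => ?_⟩
    have h1 : (a x i).natAbs ≤ ∑ i, (a x i).natAbs :=
      Finset.single_le_sum (f := fun i => (a x i).natAbs) (fun _ _ => Nat.zero_le _)
        (Finset.mem_univ i)
    have h2 : (∑ i, (a x i).natAbs) ≤ ∑ x, ∑ i, (a x i).natAbs :=
      Finset.single_le_sum (f := fun x => ∑ i, (a x i).natAbs) (fun _ _ => Nat.zero_le _)
        (Finset.mem_univ x)
    omega
  set G : Gr n m k := ⟨c0.1, c0.2.1, c0.2.2.1, c0.2.2.2,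
    fun f => Finsupp.equivFunOnFinite.symm fun i => ((M : ℤ) + a (Sum.inl f) i).toNat,
    fun f => Finsupp.equivFunOnFinite.symm fun i => ((M : ℤ) + a (Sum.inr f) i).toNat⟩ with hGdef
  have hexp : ∀ᶠ j in (hyperfilter ℕ : Filter ℕ), (∀ f, ∑ i, G.p f i * e j i =
      M * (∑ i, e j i) + p j f) ∧ ∀ f, ∑ i, G.q f i * e j i = M * (∑ i, e j i) + q j f := by
    filter_upwards [hcoord] with j hj
    have key : ∀ x : Fin m ⊕ Fin m, ∑ i, ((M : ℤ) + a x i).toNat * e j i =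
        M * (∑ i, e j i) + Sum.elim (p j) (q j) x := by
      intro x
      have h3 : ((∑ i, ((M : ℤ) + a x i).toNat * e j i : ℕ) : ℤ) =
          ((M * (∑ i, e j i) + Sum.elim (p j) (q j) x : ℕ) : ℤ) := by
        push_cast
        have h4 : ∀ i, ((((M : ℤ) + a x i).toNat : ℕ) : ℤ) = (M : ℤ) + a x i := fun i =>
          Int.toNat_of_nonneg (hM x i)
        simp only [h4, add_mul, Finset.sum_add_distrib, Finset.mul_sum]
        rw [hj x]
      exact_mod_cast h3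
    exact ⟨fun f => key (Sum.inl f), fun f => key (Sum.inr f)⟩
  have hspec : ∀ᶠ j in (hyperfilter ℕ : Filter ℕ), ∀ J, spec (e j) (G.minor J) =
      (X ^ (M * ∑ i, e j i)) ^ n * minor1 (c j) (p j) (q j) J := by
    filter_upwards [hexp, hc0] with j hj hcj J
    rw [spec_minor, hcj]
    unfold minor1
    have h1 : mat1 G.ty (fun f => ∑ i, G.p f i * e j i) (fun f => ∑ i, G.q f i * e j i) =
        (X ^ (M * ∑ i, e j i) : ℤ[X]) • mat1 c0 (p j) (q j) := by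
      ext1 u f
      rw [Matrix.smul_apply, smul_eq_mul]
      unfold mat1
      change (if c0.1 f = u then C ((c0.2.2.1 f : ℤˣ) : ℤ) * X ^ (∑ i, G.p f i * e j i) else 0) +
        (if c0.2.1 f = some u then C ((c0.2.2.2 f : ℤˣ) : ℤ) * X ^ (∑ i, G.q f i * e j i) else 0) = _
      rw [hj.1 f, hj.2 f, mul_add, mul_ite, mul_ite, mul_zero]
      congr 1
      · split_ifs
        · ring
        · rfl
      · split_ifs
        · ring
        · rfl
    have h2 : ((X ^ (M * ∑ i, e j i) : ℤ[X]) • mat1 c0 (p j) (q j)).submatrix id J.1 =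
        (X ^ (M * ∑ i, e j i) : ℤ[X]) • (mat1 c0 (p j) (q j)).submatrix id J.1 := rfl
    rw [h1, h2, Matrix.det_smul, Fintype.card_fin]
  have hsp : ∀ᶠ j in (hyperfilter ℕ : Filter ℕ), ∃ J, spec (e j) (G.minor J) ≠ 0 := by
    filter_upwards [hspec, hc] with j hj hcj
    obtain ⟨_, J, hJ⟩ := hcj
    exact ⟨J, by rw [hj J]; exact mul_ne_zero (pow_ne_zero _ (pow_ne_zero _ Polynomial.X_ne_zero)) hJ⟩
  have hG : G.Good := by
    obtain ⟨j, J, hJ⟩ := hsp.exists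
    refine ⟨J, ?_⟩
    intro h0
    rw [h0, map_zero] at hJ
    exact hJ rfl
  have hA : G.Adm h g := by
    obtain ⟨j, h1, h2⟩ := (hc.and hc0).exists
    rw [h2] at h1
    exact h1.1
  refine ⟨k, G, hk, hA, hG, ?_⟩
  have h1 := m1_lim (hyperfilter ℕ : Filter ℕ) e hAI _ (Gr.F_ne hG)
  rw [← G.meas_eq] at h1
  refine tendsto_nhds_unique h1 (hlim.congr' ?_)
  filter_upwards [hspec, hsp, hc] with j h2 h3 h4
  rw [m1_spec_Fk _ biHom_sq ell_sq G.minor (e j) h3,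
    m1_F1_mul _ biHom_sq ell_sq (minor1 (c j) (p j) (q j)) (fun J => spec (e j) (G.minor J)) h4.2
      ((X ^ (M * ∑ i, e j i)) ^ n) (pow_ne_zero _ (pow_ne_zero _ Polynomial.X_ne_zero)) h2]
  have h5 : m1 ((X ^ (M * ∑ i, e j i)) ^ n : ℤ[X]) = 1 := by
    have h6 := m1_unit_X 1 ((M * ∑ i, e j i) * n)
    rw [Units.val_one, map_one, one_mul, pow_mul] at h6
    exact h6
  rw [h5, one_pow, one_mul]

/-- measures of the Laplacians of the periodic graphs of the class -/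
def TL (h g : Prop) : Set ℝ :=
  {x : ℝ | ∃ (k n m : ℕ) (G : Gr n m k), 1 ≤ k ∧ G.Adm h g ∧ G.Good ∧ x = G.meas}

theorem closed_TL (h g : Prop) : IsClosed (TL h g) := by
  refine IsSeqClosed.isClosed ?_
  intro x μ hx hlim
  have hred : ∀ j, ∃ (k n m : ℕ) (G : Gr n m k), G.Adm h g ∧ G.Good ∧ x j = G.meas ∧
      n + 6 ≤ 6 * ⌊x j⌋₊ ∧ m + 7 ≤ 7 * ⌊x j⌋₊ := by
    intro j
    obtain ⟨k, n, m, G, _, hA, hG, hxG⟩ := hx j
    obtain ⟨n', m', G', h1, h2, h3, h4, h5⟩ := G.reduce h g k (n + m) n m le_rfl hA hG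
    refine ⟨k, n', m', G', h1, h2, by rw [h3, hxG], ?_, ?_⟩
    · rw [hxG]; exact h4
    · rw [hxG]; exact h5
  choose k n m G hA hG hxG hn hm using hred
  obtain ⟨B, hB⟩ := hlim.bddAbove_range
  obtain ⟨N, hN⟩ : ∃ N : ℕ, N = 7 * ⌊B⌋₊ := ⟨_, rfl⟩
  have hnN : ∀ j, n j < N + 1 := by
    intro j
    have h1 : x j ≤ B := hB ⟨j, rfl⟩
    have h2 := Nat.floor_mono h1
    have := hn j
    omega
  have hmN : ∀ j, m j < N + 1 := by
    intro j
    have h1 : x j ≤ B := hB ⟨j, rfl⟩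
    have h2 := Nat.floor_mono h1
    have := hm j
    omega
  obtain ⟨⟨n0, m0⟩, h0⟩ := pigeon (fun j => ((⟨n j, hnN j⟩, ⟨m j, hmN j⟩) : Fin (N + 1) × Fin (N + 1)))
  have happ : ∀ j, ∃ (c : Ty (n j) (m j)) (p q : Fin (m j) → ℕ), AdmT h g c ∧
      (∃ J, minor1 c p q J ≠ 0) ∧
      |m1 (F1 (Pool.Agent.W5h6.HS.sq {J : Fin (n j) → Fin (m j) // StrictMono J}) (minor1 c p q)) - x j| <
        1 / ((j : ℝ) + 1) := by
    intro j
    rw [hxG j]
    exact approx h g (G j) (hA j) (hG j) _ (by positivity)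
  have happ' : ∀ᶠ j in (hyperfilter ℕ : Filter ℕ), ∃ (c : Ty n0 m0) (p q : Fin m0 → ℕ),
      AdmT h g c ∧ (∃ J, minor1 c p q J ≠ 0) ∧
      |m1 (F1 (Pool.Agent.W5h6.HS.sq {J : Fin n0 → Fin m0 // StrictMono J}) (minor1 c p q)) - x j| <
        1 / ((j : ℝ) + 1) := by
    filter_upwards [h0] with j hj
    have h1 : n j = n0 := by
      have := congrArg (fun z => (z.1 : ℕ)) hj
      exact this
    have h2 : m j = m0 := by
      have := congrArg (fun z => (z.2 : ℕ)) hj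
      exact this
    rw [← h1, ← h2]
    exact happ j
  -- choose
  obtain ⟨j0, hj0⟩ := happ'.exists
  obtain ⟨cd, pd, qd, _⟩ := hj0
  have hsel : ∀ j, ∃ (c : Ty n0 m0) (p q : Fin m0 → ℕ),
      (∃ (c : Ty n0 m0) (p q : Fin m0 → ℕ),
      AdmT h g c ∧ (∃ J, minor1 c p q J ≠ 0) ∧
      |m1 (F1 (Pool.Agent.W5h6.HS.sq {J : Fin n0 → Fin m0 // StrictMono J}) (minor1 c p q)) - x j| <
        1 / ((j : ℝ) + 1)) → AdmT h g c ∧ (∃ J, minor1 c p q J ≠ 0) ∧
      |m1 (F1 (Pool.Agent.W5h6.HS.sq {J : Fin n0 → Fin m0 // StrictMono J}) (minor1 c p q)) - x j| <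
        1 / ((j : ℝ) + 1) := by
    intro j
    by_cases hj : ∃ (c : Ty n0 m0) (p q : Fin m0 → ℕ),
      AdmT h g c ∧ (∃ J, minor1 c p q J ≠ 0) ∧
      |m1 (F1 (Pool.Agent.W5h6.HS.sq {J : Fin n0 → Fin m0 // StrictMono J}) (minor1 c p q)) - x j| <
        1 / ((j : ℝ) + 1)
    · obtain ⟨c, p, q, h1⟩ := hj
      exact ⟨c, p, q, fun _ => h1⟩
    · exact ⟨cd, pd, qd, fun h1 => absurd h1 hj⟩
  choose c p q hcpq using hsel
  have hfin : ∀ᶠ j in (hyperfilter ℕ : Filter ℕ), AdmT h g (c j) ∧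
      (∃ J, minor1 (c j) (p j) (q j) J ≠ 0) ∧
      |m1 (F1 (Pool.Agent.W5h6.HS.sq {J : Fin n0 → Fin m0 // StrictMono J})
        (minor1 (c j) (p j) (q j))) - x j| < 1 / ((j : ℝ) + 1) := by
    filter_upwards [happ'] with j hj
    exact hcpq j hj
  have hl : Tendsto (fun j => m1 (F1 (Pool.Agent.W5h6.HS.sq {J : Fin n0 → Fin m0 // StrictMono J})
      (minor1 (c j) (p j) (q j)))) (hyperfilter ℕ : Filter ℕ) (𝓝 μ) := by
    have h3 : Tendsto (fun j => m1 (F1 (Pool.Agent.W5h6.HS.sq {J : Fin n0 → Fin m0 // StrictMono J})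
      (minor1 (c j) (p j) (q j))) - x j) (hyperfilter ℕ : Filter ℕ) (𝓝 0) := by
      refine squeeze_zero_norm' (a := fun j : ℕ => 1 / ((j : ℝ) + 1)) ?_
        (tendsto_one_div_add_atTop_nhds_zero_nat.mono_left I2_hyper_le)
      filter_upwards [hfin] with j hj
      rw [Real.norm_eq_abs]
      exact hj.2.2.le
    have h4 := h3.add (hlim.mono_left I2_hyper_le)
    simp only [sub_add_cancel, zero_add] at h4
    exact h4
  obtain ⟨k', G', hk', hA', hG', hmeas⟩ := limit h g n0 m0 c p q μ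
    (hfin.mono fun j hj => ⟨hj.1, hj.2.1⟩) hl
  exact ⟨k', n0, m0, G', hk', hA', hG', hmeas.symm⟩

end

end Pool.Agent.W5h6.LG
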