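import Pool.Agent.W5h6.HS.Gram

/-! # Linear algebra for the contraction of an edge -/

set_option autoImplicit false

namespace Pool.Agent.W5h6.LG

open Matrix
open scoped ComplexConjugate

noncomputable section

theorem det_upd_both {n : ℕ} (N : Matrix (Fin n) (Fin n) ℂ) (u : Fin n) :
    ((N.updateRow u (Pi.single u 1)).updateCol u (Pi.single u 1)).det =
      (N.updateRow u (Pi.single u 1)).det := by
  set M1 := N.updateRow u (Pi.single u 1) with hM1
  have h1 : (M1.updateCol u (Pi.single u 1)).det = (M1ᵀ.updateRow u (Pi.single u 1)).det := by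
    rw [← Matrix.det_transpose]
    congr 1
    rw [← Matrix.updateRow_transpose]
  rw [h1, ← Matrix.adjugate_apply, ← Matrix.adjugate_transpose, Matrix.transpose_apply,
    Matrix.adjugate_apply]
  congr 1
  rw [hM1]
  ext i j
  by_cases hi : i = u
  · subst hi
    simp
  · simp [Matrix.updateRow_ne hi]

theorem det_add_single {n : ℕ} (N : Matrix (Fin n) (Fin n) ℂ) (u : Fin n) :
    (N + Matrix.single u u 1).det = N.det + (N.updateRow u (Pi.single u 1)).det := by
  have h1 : N + Matrix.single u u 1 = N.updateRow u (N u + Pi.single u 1) := by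
    ext i j
    by_cases hi : i = u
    · subst hi
      simp [Matrix.single_apply, Pi.single_apply, eq_comm]
    · rw [Matrix.updateRow_ne hi, Matrix.add_apply, Matrix.single_apply_of_row_ne (Ne.symm hi)]
      simp
  rw [h1, Matrix.det_updateRow_add, Matrix.updateRow_eq_self]

/-- The row operation which removes the entry at `v`. -/
def rowOp {n : ℕ} (u v : Fin n) (α β : ℂ) : Matrix (Fin n) (Fin n) ℂ :=
  (1 : Matrix (Fin n) (Fin n) ℂ).updateRow v (α • Pi.single v 1 + (-β) • Pi.single u 1)

theorem det_rowOp {n : ℕ} {u v : Fin n} (huv : u ≠ v) (α β : ℂ) : (rowOp u v α β).det = α := by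
  unfold rowOp
  rw [Matrix.det_updateRow_add, Matrix.det_updateRow_smul, Matrix.det_updateRow_smul]
  have h1 : (1 : Matrix (Fin n) (Fin n) ℂ).updateRow v (Pi.single v 1) = 1 := by
    ext i j
    by_cases hi : i = v
    · subst hi
      simp [Matrix.one_apply, Pi.single_apply, eq_comm]
    · rw [Matrix.updateRow_ne hi]
  have h2 : ((1 : Matrix (Fin n) (Fin n) ℂ).updateRow v (Pi.single u 1)).det = 0 := by
    refine Matrix.det_zero_of_row_eq huv ?_
    ext j
    rw [Matrix.updateRow_ne huv, Matrix.updateRow_self]
    simp [Matrix.one_apply, Pi.single_apply, eq_comm]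
  rw [h1, h2]
  simp

theorem rowOp_mul {n m : ℕ} {u v : Fin n} (α β : ℂ) (A : Matrix (Fin n) (Fin m) ℂ)
    (i : Fin n) (f : Fin m) :
    (rowOp u v α β * A) i f = if i = v then α * A v f - β * A u f else A i f := by
  rw [Matrix.mul_apply]
  by_cases hi : i = v
  · subst hi
    simp only [rowOp, Matrix.updateRow_self, if_true]
    simp only [Pi.add_apply, Pi.smul_apply, smul_eq_mul, add_mul, Finset.sum_add_distrib,
      Pi.single_apply, mul_ite, mul_one, mul_zero, ite_mul, zero_mul]
    simp only [Finset.sum_ite_eq', Finset.mem_univ, if_true]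
    ring
  · simp only [rowOp, Matrix.updateRow_ne hi, hi, if_false]
    simp [Matrix.one_apply]

/-- contraction of a column which is in all bases -/
theorem contract_det {n m : ℕ} (A A' : Matrix (Fin n) (Fin m) ℂ) {u v : Fin n} (huv : u ≠ v)
    (c : Fin m) {α β : ℂ} (hα : ‖α‖ = 1)
    (hA : ∀ w, A w c = if w = u then α else if w = v then β else 0)
    (hA'c : ∀ w, A' w c = if w = u then 1 else 0)
    (hA'u : ∀ f, f ≠ c → A' u f = 0)
    (hA'v : ∀ f, f ≠ c → A' v f = α * A v f - β * A u f)
    (hA'w : ∀ f, f ≠ c → ∀ w, w ≠ u → w ≠ v → A' w f = A w f)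
    (hdel : ((A.updateCol c 0) * (A.updateCol c 0)ᴴ).det = 0) :
    (A' * A'ᴴ).det = (A * Aᴴ).det := by
  set E := rowOp u v α β with hE
  have hdetE : E.det = α := det_rowOp huv α β
  set A0 := A.updateCol c 0 with hA0
  set N := (E * A0) * (E * A0)ᴴ with hN
  have hαα : α * conj α = 1 := by
    rw [Complex.mul_conj, Complex.normSq_eq_norm_sq, hα]
    norm_num
  have hNdet : N.det = 0 := by
    rw [hN, Matrix.conjTranspose_mul, Matrix.mul_assoc, ← Matrix.mul_assoc A0, Matrix.det_mul,
      Matrix.det_mul, hdel]
    simp
  have h1 : ((E * A) * (E * A)ᴴ).det = (A * Aᴴ).det := by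
    rw [Matrix.conjTranspose_mul, Matrix.mul_assoc, ← Matrix.mul_assoc A, Matrix.det_mul,
      Matrix.det_mul, Matrix.det_conjTranspose, hdetE]
    have : star α = conj α := rfl
    rw [this]
    calc α * ((A * Aᴴ).det * conj α) = (α * conj α) * (A * Aᴴ).det := by ring
      _ = _ := by rw [hαα, one_mul]
  have h2 : (E * A) * (E * A)ᴴ = N + Matrix.single u u 1 := by
    ext i j
    rw [Matrix.add_apply, hN, Matrix.mul_apply, Matrix.mul_apply]
    rw [← Finset.add_sum_erase _ _ (Finset.mem_univ c), ← Finset.add_sum_erase _ _ (Finset.mem_univ c)]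
    have h3 : ∀ f ∈ Finset.univ.erase c, (E * A) i f * (E * A)ᴴ f j =
        (E * A0) i f * (E * A0)ᴴ f j := by
      intro f hf
      have hfc : f ≠ c := Finset.ne_of_mem_erase hf
      have h4 : ∀ w, A0 w f = A w f := fun w => by rw [hA0, Matrix.updateCol_ne hfc]
      simp only [Matrix.conjTranspose_apply, hE, rowOp_mul, h4]
    rw [Finset.sum_congr rfl h3]
    have h4 : (E * A0) i c = 0 := by
      have h5 : ∀ w, A0 w c = 0 := fun w => by rw [hA0, Matrix.updateCol_self]; rfl
      rw [hE, rowOp_mul]
      simp [h5]
    have h5 : ∀ w, (E * A) w c = if w = u then α else 0 := by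
      intro w
      rw [hE, rowOp_mul]
      by_cases hw : w = v
      · subst hw
        rw [if_pos rfl, hA, hA, if_neg (Ne.symm huv), if_pos rfl, if_pos rfl, if_neg (Ne.symm huv)]
        ring
      · rw [if_neg hw, hA, if_neg hw]
    rw [h4, zero_mul, zero_add, Matrix.conjTranspose_apply, h5, h5, add_comm]
    congr 1
    by_cases hi : i = u
    · by_cases hj : j = u
      · subst hi
        subst hj
        simp only [if_true, Matrix.single_apply_same]
        exact hαα
      · simp [Matrix.single_apply, hj, Ne.symm hj]
    · simp [Matrix.single_apply, hi, Ne.symm hi]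
  have h3 : A' * A'ᴴ = (N.updateRow u (Pi.single u 1)).updateCol u (Pi.single u 1) := by
    have hu : ∀ f, A' u f = if f = c then 1 else 0 := by
      intro f
      by_cases hf : f = c
      · subst hf
        rw [hA'c, if_pos rfl, if_pos rfl]
      · rw [hA'u f hf, if_neg hf]
    ext i j
    rw [Matrix.mul_apply]
    simp only [Matrix.conjTranspose_apply]
    by_cases hj : j = u
    · subst hj
      rw [Matrix.updateCol_self]
      simp only [hu]
      rw [Finset.sum_eq_single c]
      · rw [if_pos rfl, hA'c]
        simp [Pi.single_apply]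
      · intro f _ hf
        rw [if_neg hf]
        simp
      · intro h
        exact absurd (Finset.mem_univ c) h
    · rw [Matrix.updateCol_ne hj]
      by_cases hi : i = u
      · subst hi
        rw [Matrix.updateRow_self]
        simp only [hu]
        rw [Finset.sum_eq_single c]
        · rw [if_pos rfl, hA'c, if_neg hj]
          simp [Pi.single_apply, hj]
        · intro f _ hf
          rw [if_neg hf]
          simp
        · intro h
          exact absurd (Finset.mem_univ c) h
      · rw [Matrix.updateRow_ne hi, hN, Matrix.mul_apply]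
        refine Finset.sum_congr rfl fun f _ => ?_
        have h4 : ∀ w, w ≠ u → A' w f = (E * A0) w f := by
          intro w hw
          rw [hE, rowOp_mul]
          by_cases hf : f = c
          · subst hf
            have h5 : ∀ w, A0 w f = 0 := fun w => by rw [hA0, Matrix.updateCol_self]; rfl
            rw [hA'c, if_neg hw]
            simp [h5]
          · have h5 : ∀ w, A0 w f = A w f := fun w => by rw [hA0, Matrix.updateCol_ne hf]
            by_cases hwv : w = v
            · subst hwv
              rw [hA'v f hf, if_pos rfl, h5, h5]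
            · rw [hA'w f hf w hw hwv, if_neg hwv, h5]
        rw [Matrix.conjTranspose_apply, h4 i hi, h4 j hj]
  rw [h3, det_upd_both, ← h1, h2, det_add_single, hNdet, zero_add]

end

end Pool.Agent.W5h6.LG
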