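import Pool.Agent.W5h6.LG.Count

/-! # Graphs of bounded measure have bounded size after reductions -/

set_option autoImplicit false

namespace Pool.Agent.W5h6.LG

open Matrix MeasureTheory Filter Topology Pool.Agent.H261R2.CM Pool.Agent.W5h6.HS
open scoped ComplexConjugate

noncomputable section

theorem Gr.bound {n m k : ℕ} (G : Gr n m k) (hG : G.Good)
    (R1 : ¬ ∃ c, ∀ u, G.mat u c = 0)
    (R2 : ¬ ∃ c v, G.t c = some v ∧ G.s c ≠ v ∧ G.Coloop c)
    (R3 : ¬ ∃ c, (G.t c = none ∨ G.t c = some (G.s c)) ∧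
      (∀ f, f ≠ c → G.s f ≠ G.s c ∧ G.t f ≠ some (G.s c)) ∧ mM (G.mat (G.s c) c) = 1) :
    n + 6 ≤ 6 * ⌊G.meas⌋₊ ∧ m + 7 ≤ 7 * ⌊G.meas⌋₊ := by
  classical
  obtain ⟨⟨J, hJm⟩, hJ'⟩ := hG
  have hJ : (G.mat.submatrix id J).det ≠ 0 := hJ'
  have hinj : Function.Injective J := hJm.injective
  set T : Finset (Fin m) := Finset.univ.filter fun f => f ∉ Set.range J with hT
  set S : Finset (Fin n) := Finset.univ.filter fun b => ∃ f, f ∉ Set.range J ∧ G.crd J b f ≠ 0
    with hS
  have hmT : ∀ f, f ∈ T ↔ f ∉ Set.range J := fun f => by simp [hT]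
  have hmS : ∀ b, b ∈ S ↔ ∃ f, f ∉ Set.range J ∧ G.crd J b f ≠ 0 := fun b => by
    rw [hS, Finset.mem_filter]
    exact ⟨fun h => h.2, fun h => ⟨Finset.mem_univ b, h⟩⟩
  have hcardT : m = n + T.card := by
    have h1 : Tᶜ = Finset.univ.image J := by
      ext f
      rw [Finset.mem_compl, hmT, not_not]
      simp
    have h2 : Tᶜ.card = n := by
      rw [h1, Finset.card_image_of_injective _ hinj]
      simp
    have h3 := Finset.card_compl_add_card T
    rw [h2] at h3
    simpa using h3.symm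
  -- coloops
  have hcol : ∀ b, b ∉ S → G.Coloop (J b) := by
    intro b hb
    refine G.coloop_of_crd J hJ b fun f hf => ?_
    by_cases hfr : f ∈ Set.range J
    · obtain ⟨b', rfl⟩ := hfr
      refine G.crd_zero J ?_
      rintro rfl
      exact hf rfl
    · by_contra hne
      exact hb ((hmS b).mpr ⟨f, hfr, hne⟩)
  have htype : ∀ b, b ∉ S → (G.t (J b) = none ∨ G.t (J b) = some (G.s (J b))) := by
    intro b hb
    rcases hcase : G.t (J b) with _ | v
    · exact Or.inl rfl
    · right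
      by_contra hne
      exact R2 ⟨J b, v, hcase, fun h => hne (by rw [h]), hcol b hb⟩
  have hsupp : ∀ b, b ∉ S → ∀ w, w ≠ G.s (J b) → G.mat w (J b) = 0 := by
    intro b hb w hw
    unfold Gr.mat
    rw [if_neg (Ne.symm hw), zero_add]
    rcases htype b hb with h | h
    · rw [h, if_neg (by simp)]
    · rw [h, if_neg (by simpa using Ne.symm hw)]
  have hinjs : ∀ b b', b ∉ S → b' ∉ S → G.s (J b) = G.s (J b') → b = b' := by
    intro b b' hb hb' h
    by_contra hne
    exact G.parallel J hJ hne (G.s (J b)) (hsupp b hb) (by rw [h]; exact hsupp b' hb')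
  set C1 : Finset (Fin n) := Finset.univ.filter fun b => b ∉ S ∧
    mM (G.mat (G.s (J b)) (J b)) = 1 with hC1
  set C2 : Finset (Fin n) := Finset.univ.filter fun b => b ∉ S ∧
    mM (G.mat (G.s (J b)) (J b)) ≠ 1 with hC2
  have hmC1 : ∀ b, b ∈ C1 ↔ (b ∉ S ∧ mM (G.mat (G.s (J b)) (J b)) = 1) := fun b => by
    rw [hC1, Finset.mem_filter]
    exact ⟨fun h => h.2, fun h => ⟨Finset.mem_univ b, h⟩⟩
  have hmC2 : ∀ b, b ∈ C2 ↔ (b ∉ S ∧ mM (G.mat (G.s (J b)) (J b)) ≠ 1) := fun b => by
    rw [hC2, Finset.mem_filter]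
    exact ⟨fun h => h.2, fun h => ⟨Finset.mem_univ b, h⟩⟩
  have hn : n ≤ S.card + C1.card + C2.card := by
    have h1 : (Finset.univ : Finset (Fin n)) ⊆ S ∪ C1 ∪ C2 := by
      intro b _
      rw [Finset.mem_union, Finset.mem_union, hmC1, hmC2]
      tauto
    have h2 := Finset.card_le_card h1
    have h3 := Finset.card_union_le (S ∪ C1) C2
    have h4 := Finset.card_union_le S C1
    simp only [Finset.card_univ, Fintype.card_fin] at h2
    omega
  -- the number of coloops with other incident columns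
  set NC : Finset (Fin m) := T ∪ S.image J with hNC
  have hNCcard : NC.card ≤ T.card + S.card := by
    refine (Finset.card_union_le _ _).trans ?_
    have := Finset.card_image_le (s := S) (f := J)
    omega
  have hinc : ∀ b ∈ C1, ∃ f ∈ NC, G.s f = G.s (J b) ∨ G.t f = some (G.s (J b)) := by
    intro b hb
    rw [hmC1] at hb
    by_contra hcon
    push Not at hcon
    apply R3
    refine ⟨J b, htype b hb.1, fun f hf => ?_, hb.2⟩
    by_cases hfN : f ∈ NC
    · exact hcon f hfN
    · rw [hNC, Finset.mem_union, hmT] at hfN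
      push Not at hfN
      obtain ⟨⟨b', rfl⟩, hfS⟩ := hfN
      have hb' : b' ∉ S := fun h => hfS (Finset.mem_image_of_mem J h)
      have hne : b' ≠ b := fun h => hf (by rw [h])
      have h1 : G.s (J b') ≠ G.s (J b) := fun h => hne (hinjs b' b hb' hb.1 h)
      refine ⟨h1, ?_⟩
      rcases htype b' hb' with h2 | h2
      · rw [h2]
        simp
      · rw [h2]
        exact fun h => h1 (Option.some_injective _ h)
  have hC1card : C1.card ≤ 2 * NC.card := by
    have h1 : C1.card ≤ (NC.image (fun f => some (G.s f)) ∪ NC.image G.t).card := by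
      refine Finset.card_le_card_of_injOn (fun b => some (G.s (J b))) ?_ ?_
      · intro b hb
        rw [Finset.mem_coe] at hb
        obtain ⟨f, hf, h2⟩ := hinc b hb
        rw [Finset.mem_coe, Finset.mem_union, Finset.mem_image, Finset.mem_image]
        rcases h2 with h2 | h2
        · exact Or.inl ⟨f, hf, by rw [h2]⟩
        · exact Or.inr ⟨f, hf, h2⟩
      · intro b hb b' hb' h
        rw [Finset.mem_coe, hmC1] at hb hb'
        exact hinjs b b' hb.1 hb'.1 (Option.some_injective _ h)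
    have h2 := Finset.card_union_le (NC.image (fun f => some (G.s f))) (NC.image G.t)
    have h3 := Finset.card_image_le (s := NC) (f := fun f => some (G.s f))
    have h4 := Finset.card_image_le (s := NC) (f := G.t)
    omega
  -- coloops with entry divisible by two
  have hC2card : ((C2.card : ℝ)) + 1 ≤ G.meas := by
    obtain ⟨w, hw⟩ := G.two_dvd J C2 (by
      intro b hb u
      rw [hmC2] at hb
      by_cases hu : u = G.s (J b)
      · subst hu
        rcases entry_cases G (J b) (htype b hb.1) with h1 | h1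
        · exact absurd h1 hb.2
        · exact h1
      · exact ⟨0, by rw [hsupp b hb.1 u hu, mul_zero]⟩)
    have hw0 : w ≠ 0 := by
      rintro rfl
      rw [mul_zero] at hw
      exact hJ hw
    have h2 : (2 : MvPolynomial (Fin k) ℤ) ^ C2.card ≠ 0 := by
      intro h0
      rw [h0, zero_mul] at hw
      exact hJ hw
    have h3 := G.minor_sq_le ⟨J, hJm⟩ hJ'
    have h4 : mM (G.minor ⟨J, hJm⟩) = 2 ^ C2.card * mM w := by
      unfold Gr.minor
      rw [hw, mM_mul _ _ h2 hw0, mM_two_pow]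
    have h5 := one_le_mM w hw0
    have h6 : (2 : ℝ) ^ C2.card ≤ mM (G.minor ⟨J, hJm⟩) := by
      rw [h4]
      have : (0 : ℝ) < 2 ^ C2.card := by positivity
      nlinarith
    have h7 : ((C2.card : ℝ)) + 1 ≤ 2 ^ C2.card := by
      have := Nat.lt_two_pow_self (n := C2.card)
      exact_mod_cast this
    have h8 : (1 : ℝ) ≤ 2 ^ C2.card := one_le_pow₀ (by norm_num)
    nlinarith
  have hS1 : ((S.card : ℝ)) + 1 ≤ G.meas := by
    have h1 := G.count_in J hJ S fun b hb => (hmS b).mp hb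
    have h2 := G.supp_card_le ⟨⟨J, hJm⟩, hJ'⟩
    have h3 : ((S.card : ℝ)) + 1 ≤ G.supp.card := by exact_mod_cast h1
    linarith
  have hT1 : ((T.card : ℝ)) + 1 ≤ G.meas := by
    have h1 := G.count_out J hJ T fun f hf => ⟨(hmT f).mp hf, G.exists_crd J hJ f (by
      by_contra hcon
      push Not at hcon
      exact R1 ⟨f, hcon⟩)⟩
    have h2 := G.supp_card_le ⟨⟨J, hJm⟩, hJ'⟩
    have h3 : ((T.card : ℝ)) + 1 ≤ G.supp.card := by exact_mod_cast h1
    linarith
  have f1 : S.card + 1 ≤ ⌊G.meas⌋₊ := Nat.le_floor (by push_cast; exact hS1)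
  have f2 : T.card + 1 ≤ ⌊G.meas⌋₊ := Nat.le_floor (by push_cast; exact hT1)
  have f3 : C2.card + 1 ≤ ⌊G.meas⌋₊ := Nat.le_floor (by push_cast; exact hC2card)
  constructor
  · omega
  · omega

/-- Every graph can be replaced by one whose size is bounded in terms of the measure. -/
theorem Gr.reduce (h g : Prop) (k : ℕ) : ∀ (N n m : ℕ) (G : Gr n m k), n + m ≤ N → G.Adm h g →
    G.Good → ∃ (n' m' : ℕ) (G' : Gr n' m' k), G'.Adm h g ∧ G'.Good ∧ G'.meas = G.meas ∧
      n' + 6 ≤ 6 * ⌊G.meas⌋₊ ∧ m' + 7 ≤ 7 * ⌊G.meas⌋₊ := by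
  intro N
  induction N with
  | zero =>
    intro n m G hN hA hG
    have h1 : 1 ≤ ⌊G.meas⌋₊ := Nat.le_floor (by push_cast; exact Gr.one_le_meas hG)
    exact ⟨n, m, G, hA, hG, rfl, by omega, by omega⟩
  | succ N ih =>
    intro n m G hN hA hG
    by_cases R1 : ∃ c, ∀ u, G.mat u c = 0
    · obtain ⟨c, hc⟩ := R1
      rcases m with _ | m
      · exact c.elim0
      · obtain ⟨G', hG', h1⟩ := G.del h g hA c hc
        have h2 := Gr.congr (G := G) (G' := G') fun θ => by rw [h1 θ]
        obtain ⟨n', m', G'', h3, h4, h5, h6, h7⟩ := ih n m G' (by omega) hG' (h2.2.mp hG)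
        exact ⟨n', m', G'', h3, h4, by rw [h5, h2.1], by rw [h2.1]; exact h6, by rw [h2.1]; exact h7⟩
    by_cases R2 : ∃ c v, G.t c = some v ∧ G.s c ≠ v ∧ G.Coloop c
    · obtain ⟨c, v, ht, hsv, hc⟩ := R2
      rcases m with _ | m
      · exact c.elim0
      rcases n with _ | n
      · exact v.elim0
      obtain ⟨G', hG', h1⟩ := G.contract h g hA c hsv rfl ht hc
      have h2 := Gr.congr (G := G) (G' := G') h1
      obtain ⟨n', m', G'', h3, h4, h5, h6, h7⟩ := ih n m G' (by omega) hG' (h2.2.mp hG)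
      exact ⟨n', m', G'', h3, h4, by rw [h5, h2.1], by rw [h2.1]; exact h6, by rw [h2.1]; exact h7⟩
    by_cases R3 : ∃ c, (G.t c = none ∨ G.t c = some (G.s c)) ∧
      (∀ f, f ≠ c → G.s f ≠ G.s c ∧ G.t f ≠ some (G.s c)) ∧ mM (G.mat (G.s c) c) = 1
    · obtain ⟨c, ht, hoff, hM⟩ := R3
      rcases m with _ | m
      · exact c.elim0
      rcases n with _ | n
      · exact (G.s c).elim0
      obtain ⟨G', hG', h1⟩ := G.remove h g (G.s c) c rfl ht hoff
        ⟨fun f _ => hA.1 f, fun f _ => hA.2 f⟩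
      obtain ⟨h8, h9, h10⟩ := Gr.meas_mul h1 hG
      rw [hM, one_pow, one_mul] at h10
      obtain ⟨n', m', G'', h3, h4, h5, h6, h7⟩ := ih n m G' (by omega) hG' h9
      exact ⟨n', m', G'', h3, h4, by rw [h5, h10], by rw [h10]; exact h6, by rw [h10]; exact h7⟩
    obtain ⟨h1, h2⟩ := G.bound hG R1 R2 R3
    exact ⟨n, m, G, hA, hG, rfl, h1, h2⟩

end

end Pool.Agent.W5h6.LG
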